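import Pool.Agent.V8H85.OM.Nonzero

/-!
# The reciprocal of the Mellin transform of a decaying solution of the Bessel equation is entire

`a` is (up to scaling) `√y K_ν(2πy)`. `decay` (exponential decay) is proved in `Decay.lean`; here `main`:
with `M w = ∫_0^∞ a(y) y^(w-1) dy` there is an entire function `R` with `R w * M w = 1` for `Re w > 0`.
-/

set_option autoImplicit false
open MeasureTheory Set Filter Topology

namespace Pool.Agent.V8H85.OMM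

variable {a a1 : ℝ → ℂ} {lam : ℂ} {B C : ℝ}

/-- the continuation of `1 / Mel` to `Re w > -2k` -/
noncomputable def Rk (a : ℝ → ℂ) (lam : ℂ) (k : ℕ) (w : ℂ) : ℂ :=
  (∏ j ∈ Finset.range k, ((w + 2 * j) ^ 2 + (w + 2 * j) + lam)) / ((4 * (Real.pi : ℂ) ^ 2) ^ k * Mel a (w + 2 * k))

theorem Rk_succ (S : Sol a a1 lam B C) (h0 : ∃ y : ℝ, 0 < y ∧ a y ≠ 0) {k : ℕ} {w : ℂ}
    (hw : 0 < w.re + 2 * k) : Rk a lam (k + 1) w = Rk a lam k w := by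
  have hre : 0 < (w + 2 * (k : ℂ)).re := by simpa using hw
  have hf := S.functional hre
  have hM := S.Mel_ne_zero h0 hre
  have hre2 : 0 < (w + 2 * (k : ℂ) + 2).re := by
    rw [Complex.add_re, Complex.re_ofNat]; linarith
  have hM2 := S.Mel_ne_zero h0 hre2
  have h4 : (4 * (Real.pi : ℂ) ^ 2) ≠ 0 := by
    have := Real.pi_pos.ne'
    simp [this]
  have hP : ((w + 2 * (k : ℂ)) ^ 2 + (w + 2 * (k : ℂ)) + lam) ≠ 0 := by
    intro h
    rw [h, zero_mul] at hf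
    exact (mul_ne_zero h4 hM2) hf.symm
  unfold Rk
  rw [Finset.prod_range_succ]
  have e1 : (w + 2 * ((k + 1 : ℕ) : ℂ)) = w + 2 * (k : ℂ) + 2 := by push_cast; ring
  rw [e1]
  have e2 : (4 * (Real.pi : ℂ) ^ 2) ^ (k + 1) * Mel a (w + 2 * (k : ℂ) + 2) =
      (4 * (Real.pi : ℂ) ^ 2) ^ k * (((w + 2 * (k : ℂ)) ^ 2 + (w + 2 * (k : ℂ)) + lam) * Mel a (w + 2 * (k : ℂ))) := by
    rw [hf]; ring
  rw [e2]
  rw [div_eq_div_iff (mul_ne_zero (pow_ne_zero _ h4) (mul_ne_zero hP hM)) (mul_ne_zero (pow_ne_zero _ h4) hM)]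
  ring

theorem Rk_add (S : Sol a a1 lam B C) (h0 : ∃ y : ℝ, 0 < y ∧ a y ≠ 0) {k : ℕ} (m : ℕ) {w : ℂ}
    (hw : 0 < w.re + 2 * k) : Rk a lam (k + m) w = Rk a lam k w := by
  induction m with
  | zero => rfl
  | succ m ih =>
    rw [← add_assoc, Rk_succ S h0 (by push_cast; have : (0:ℝ) ≤ m := Nat.cast_nonneg m; linarith), ih]

theorem Rk_eq (S : Sol a a1 lam B C) (h0 : ∃ y : ℝ, 0 < y ∧ a y ≠ 0) {k l : ℕ} {w : ℂ}
    (hw : 0 < w.re + 2 * k) (hw' : 0 < w.re + 2 * l) : Rk a lam k w = Rk a lam l w := by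
  rw [← Rk_add S h0 l hw, ← Rk_add S h0 k hw', add_comm]

theorem Rk_diff (S : Sol a a1 lam B C) (h0 : ∃ y : ℝ, 0 < y ∧ a y ≠ 0) {k : ℕ} {w : ℂ}
    (hw : 0 < w.re + 2 * k) : DifferentiableAt ℂ (Rk a lam k) w := by
  have hre : 0 < (w + 2 * (k : ℂ)).re := by simpa using hw
  have h4 : (4 * (Real.pi : ℂ) ^ 2) ≠ 0 := by
    have := Real.pi_pos.ne'
    simp [this]
  have hM : DifferentiableAt ℂ (fun w : ℂ => Mel a (w + 2 * (k : ℂ))) w := by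
    have h1 : DifferentiableAt ℂ (Mel a) ((fun w : ℂ => w + 2 * (k : ℂ)) w) := S.diff hre
    exact DifferentiableAt.comp (g := Mel a) (f := fun w : ℂ => w + 2 * (k : ℂ)) w h1 (by fun_prop)
  unfold Rk
  apply DifferentiableAt.div
  · fun_prop
  · exact (differentiableAt_const _).mul hM
  · exact mul_ne_zero (pow_ne_zero _ h4) (S.Mel_ne_zero h0 hre)

theorem main {a a1 : ℝ → ℂ} {lam : ℂ} {B : ℝ}
    (h1 : ∀ y : ℝ, 0 < y → HasDerivAt a (a1 y) y)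
    (h2 : ∀ y : ℝ, 0 < y → HasDerivAt a1 ((4 * (Real.pi : ℂ) ^ 2 - lam / (y : ℂ) ^ 2) * a y) y)
    (hB : ∀ y : ℝ, 0 < y → ‖a y‖ ≤ B) (h0 : ∃ y : ℝ, 0 < y ∧ a y ≠ 0) :
    ∃ R : ℂ → ℂ, Differentiable ℂ R ∧ ∀ w : ℂ, 0 < w.re → R w * Mel a w = 1 := by
  obtain ⟨C, hC0, hC⟩ := decay_aux h1 h2 hB
  have S : Sol a a1 lam B C := ⟨h1, h2, hB, hC0, hC⟩
  have hK : ∀ w : ℂ, 0 < w.re + 2 * ((⌈|w.re|⌉₊ + 1 : ℕ) : ℝ) := by
    intro w
    have h3 := Nat.le_ceil |w.re|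
    have h4 := neg_abs_le w.re
    have h5 := abs_nonneg w.re
    push_cast
    linarith
  refine ⟨fun w => Rk a lam (⌈|w.re|⌉₊ + 1) w, ?_, ?_⟩
  · intro w
    have hd := Rk_diff S h0 (hK w)
    refine hd.congr_of_eventuallyEq ?_
    have : ∀ᶠ z : ℂ in 𝓝 w, 0 < z.re + 2 * ((⌈|w.re|⌉₊ + 1 : ℕ) : ℝ) := by
      have hc : Continuous fun z : ℂ => z.re + 2 * ((⌈|w.re|⌉₊ + 1 : ℕ) : ℝ) := by fun_prop
      exact hc.continuousAt.eventually (Ioi_mem_nhds (hK w))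
    filter_upwards [this] with z hz
    exact Rk_eq S h0 (hK z) hz
  · intro w hw
    have h3 : Rk a lam (⌈|w.re|⌉₊ + 1) w = Rk a lam 0 w := Rk_eq S h0 (hK w) (by simpa using hw)
    change Rk a lam (⌈|w.re|⌉₊ + 1) w * Mel a w = 1
    rw [h3]
    unfold Rk
    have := S.Mel_ne_zero h0 hw
    simp [this]

end Pool.Agent.V8H85.OMM
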