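import Pool.Agent.V8H85.OM.B2

/-!
# Quadratic twists of an odd Maass form

`U` is the odd Hecke-Maass form as a function of a complex number, `a` is its first Fourier coefficient
(essentially `√y K(2πy)`), `c n` are the (normalised) Hecke eigenvalues, `R` is the entire reciprocal of the
Mellin transform of `a` (Task M). `main`: for a primitive quadratic character `χ` mod `q > 1` the twisted
Dirichlet series is entire and vanishes at `1/2`.
-/

set_option autoImplicit false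
open MeasureTheory Set Filter Topology
open scoped MatrixGroups

namespace Pool.Agent.V8H85.OMB

open Pool.Agent.V8H85.OMM (Mel)

structure Dat (U : ℂ → ℂ) (a : ℝ → ℂ) (c : ℕ → ℂ) (R : ℂ → ℂ) : Prop where
  smooth : ContDiffOn ℝ 2 U {z : ℂ | 0 < z.im}
  inv : ∀ γ : SL(2, ℤ), ∀ z : ℂ, 0 < z.im →
    U (((γ 0 0 : ℂ) * z + (γ 0 1 : ℂ)) / ((γ 1 0 : ℂ) * z + (γ 1 1 : ℂ))) = U z
  fourier : ∀ x y : ℝ, 0 < y → HasSum (fun n : ℕ => c n / (Real.sqrt n : ℂ) * a (n * y) *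
    (2 * Complex.I * (Real.sin (2 * Real.pi * n * x) : ℂ))) (U (x + y * Complex.I))
  fourier' : ∀ x y : ℝ, 0 < y → HasSum (fun n : ℕ => c n / (Real.sqrt n : ℂ) * a (n * y) *
    (4 * Real.pi * n * Complex.I * (Real.cos (2 * Real.pi * n * x) : ℂ)))
      (fderiv ℝ U (x + y * Complex.I) 1)
  bound : ∃ C : ℝ, ∀ n : ℕ, ‖c n‖ ≤ C * Real.sqrt n
  a_cont : ContinuousOn a (Ioi 0)
  a_bdd : ∃ B : ℝ, ∀ y : ℝ, 0 < y → ‖a y‖ ≤ B
  a_decay : ∃ C : ℝ, ∀ y : ℝ, 1 ≤ y → ‖a y‖ ≤ C * Real.exp (-Real.pi * y)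
  R_diff : Differentiable ℂ R
  R_mul : ∀ w : ℂ, 0 < w.re → R w * Mel a w = 1

section

variable {U : ℂ → ℂ} {a : ℝ → ℂ} {c : ℕ → ℂ} {R : ℂ → ℂ} (h : Dat U a c R)
  {q : ℕ} [NeZero q] {χ : DirichletCharacter ℂ q}

include h in
theorem Dat.fn : Fn a := ⟨h.a_cont, h.a_bdd, h.a_decay⟩

theorem isOpen_up : IsOpen {z : ℂ | 0 < z.im} := isOpen_lt continuous_const Complex.continuous_im

include h in
theorem U_inv (u : (ZMod q)ˣ) {y : ℝ} (hy : 0 < y) : U (pt q (u : ZMod q).val y) =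
    1 * U (pt q ((invol u : (ZMod q)ˣ) : ZMod q).val (((q:ℝ) ^ 2 * y)⁻¹)) := by
  obtain ⟨k, hk⟩ := exists_k u
  let γ : SL(2, ℤ) := ⟨!![(((invol u : (ZMod q)ˣ) : ZMod q).val : ℤ), -k;
    (q : ℤ), -((u : ZMod q).val : ℤ)], by
      rw [Matrix.det_fin_two_of]; linear_combination -hk⟩
  have h1 := h.inv γ (pt q (u : ZMod q).val y) (by rw [pt_im]; exact hy)
  obtain ⟨h2, -⟩ := moeb_pt u hy hk
  rw [← h1, one_mul, ← h2]
  congr 1
  simp only [γ]
  simp
  ring

include h in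
theorem V_inv (u : (ZMod q)ˣ) {y : ℝ} (hy : 0 < y) : fderiv ℝ U (pt q (u : ZMod q).val y) 1 =
    -((((q * y) ^ 2)⁻¹ : ℝ) : ℂ) *
      fderiv ℝ U (pt q ((invol u : (ZMod q)ˣ) : ZMod q).val (((q:ℝ) ^ 2 * y)⁻¹)) 1 := by
  obtain ⟨k, hk⟩ := exists_k u
  obtain ⟨h2, h3⟩ := moeb_pt u hy hk
  have hq0 : (0:ℝ) < q := by exact_mod_cast NeZero.pos q
  have hq : (q : ℂ) ≠ 0 := by exact_mod_cast NeZero.ne q
  have hyC : (y : ℂ) ≠ 0 := by exact_mod_cast hy.ne'
  have hI := Complex.I_ne_zero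
  set z := pt q (u : ZMod q).val y with hz
  set α : ℤ := ((u : ZMod q).val : ℤ) with hα
  set β : ℤ := (((invol u : (ZMod q)ˣ) : ZMod q).val : ℤ) with hβ
  let γ : SL(2, ℤ) := ⟨!![β, -k; (q : ℤ), -α], by
      rw [Matrix.det_fin_two_of]; linear_combination -hk⟩
  set m : ℂ → ℂ := fun w => ((β : ℂ) * w - k) / ((q : ℂ) * w - (α : ℂ)) with hm
  have hzim : 0 < z.im := by rw [hz, pt_im]; exact hy
  have hmz : m z = pt q ((invol u : (ZMod q)ˣ) : ZMod q).val (((q:ℝ) ^ 2 * y)⁻¹) := by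
    rw [← h2]
    simp only [hm, hα, hβ]
    push_cast
    rfl
  have hden : (q : ℂ) * z - (α : ℂ) = q * y * Complex.I := by
    rw [← h3, hα]; push_cast; rfl
  have hden0 : (q : ℂ) * z - (α : ℂ) ≠ 0 := by
    rw [hden]; exact mul_ne_zero (mul_ne_zero hq hyC) hI
  have hkC : (α : ℂ) * β + 1 = q * k := by exact_mod_cast hk
  have hderiv : HasDerivAt m (((-((q * y) ^ 2)⁻¹ : ℝ) : ℂ)) z := by
    have e1 : HasDerivAt (fun w : ℂ => (β : ℂ) * w - k) (β : ℂ) z := by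
      simpa using ((hasDerivAt_id z).const_mul (β : ℂ)).sub_const (k : ℂ)
    have e2 : HasDerivAt (fun w : ℂ => (q : ℂ) * w - (α : ℂ)) (q : ℂ) z := by
      simpa using ((hasDerivAt_id z).const_mul (q : ℂ)).sub_const (α : ℂ)
    refine (e1.div e2 hden0).congr_deriv ?_
    have e3 : (β : ℂ) * ((q : ℂ) * z - (α : ℂ)) - ((β : ℂ) * z - k) * q = 1 := by
      linear_combination -hkC
    rw [e3, hden]
    push_cast
    have hI2 := Complex.I_sq
    rw [mul_pow, hI2]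
    field_simp
  -- the composition
  have hev : (fun w => U (m w)) =ᶠ[𝓝 z] U := by
    filter_upwards [isOpen_up.mem_nhds hzim] with w hw
    have h1 := h.inv γ w hw
    rw [← h1]
    congr 1
    simp only [γ, hm]
    simp
    ring
  have hmim : 0 < (m z).im := by
    rw [hmz, pt_im]; positivity
  have hU : DifferentiableAt ℝ U (m z) :=
    (h.smooth.differentiableOn (by norm_num)).differentiableAt (isOpen_up.mem_nhds hmim)
  have hmf : HasFDerivAt m ((((-((q * y) ^ 2)⁻¹ : ℝ) : ℂ)) • (1 : ℂ →L[ℝ] ℂ)) z :=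
    hderiv.complexToReal_fderiv
  have hcomp : HasFDerivAt (fun w => U (m w))
      ((fderiv ℝ U (m z)).comp ((((-((q * y) ^ 2)⁻¹ : ℝ) : ℂ)) • (1 : ℂ →L[ℝ] ℂ))) z :=
    hU.hasFDerivAt.comp z hmf
  have e4 : fderiv ℝ U z = (fderiv ℝ U (m z)).comp
      ((((-((q * y) ^ 2)⁻¹ : ℝ) : ℂ)) • (1 : ℂ →L[ℝ] ℂ)) := by
    rw [← hev.fderiv_eq]
    exact hcomp.fderiv
  rw [e4, ContinuousLinearMap.comp_apply, hmz]
  have e5 : ((((-((q * y) ^ 2)⁻¹ : ℝ) : ℂ)) • (1 : ℂ →L[ℝ] ℂ)) 1 = (-((q * y) ^ 2)⁻¹ : ℝ) • (1 : ℂ) := by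
    simp
  rw [e5, map_smul, Complex.real_smul]
  push_cast
  ring

theorem tw_cont {W : ℂ → ℂ} (hW : ContinuousOn W {z : ℂ | 0 < z.im}) :
    ContinuousOn (tw χ W) (Ioi 0) := by
  unfold tw
  refine continuousOn_finsetSum _ fun u _ => ?_
  refine continuousOn_const.mul (hW.comp ?_ ?_)
  · unfold pt
    fun_prop
  · intro y hy
    show 0 < (pt q u.val y).im
    rw [pt_im]; exact hy

theorem tw_sin (hχ : χ.IsPrimitive) (hχ2 : χ ^ 2 = 1) (hodd : χ.Odd) (n : ℕ) :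
    ∑ u : ZMod q, χ u * (2 * Complex.I * (Real.sin (2 * Real.pi * n * ((u.val : ℝ) / q)) : ℂ)) =
      2 * tau χ * χ n := by
  have h1 := gs hχ hχ2 (n : ℤ)
  have h2 := gs hχ hχ2 (-(n : ℤ))
  have h3 : χ ((-(n : ℤ) : ℤ) : ZMod q) = -χ n := by
    push_cast
    exact DirichletCharacter.Odd.eval_neg χ _ hodd
  rw [h3] at h2
  have h4 : ∀ u : ZMod q, χ u * (2 * Complex.I * (Real.sin (2 * Real.pi * n * ((u.val : ℝ) / q)) : ℂ)) =
      χ u * Complex.exp (2 * Real.pi * Complex.I * ((n : ℤ) : ℂ) * u.val / q) -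
      χ u * Complex.exp (2 * Real.pi * Complex.I * ((-(n : ℤ) : ℤ) : ℂ) * u.val / q) := by
    intro u
    have e1 : (2 * Real.pi * Complex.I * ((n : ℤ) : ℂ) * u.val / q) =
        ((2 * Real.pi * n * ((u.val : ℝ) / q) : ℝ) : ℂ) * Complex.I := by push_cast; ring
    have e2 : (2 * Real.pi * Complex.I * ((-(n : ℤ) : ℤ) : ℂ) * u.val / q) =
        -((2 * Real.pi * n * ((u.val : ℝ) / q) : ℝ) : ℂ) * Complex.I := by push_cast; ring
    rw [e1, e2, Complex.ofReal_sin, Complex.sin]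
    have hI2 := Complex.I_sq
    linear_combination (χ u * (Complex.exp (-((2 * Real.pi * n * ((u.val : ℝ) / q) : ℝ) : ℂ) * Complex.I) -
      Complex.exp (((2 * Real.pi * n * ((u.val : ℝ) / q) : ℝ) : ℂ) * Complex.I))) * hI2
  rw [Finset.sum_congr rfl fun u _ => h4 u, Finset.sum_sub_distrib, h1, h2]
  push_cast
  ring

theorem tw_cos (hχ : χ.IsPrimitive) (hχ2 : χ ^ 2 = 1) (heven : χ.Even) (n : ℕ) :
    ∑ u : ZMod q, χ u * (4 * Real.pi * n * Complex.I * (Real.cos (2 * Real.pi * n * ((u.val : ℝ) / q)) : ℂ)) =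
      4 * Real.pi * Complex.I * tau χ * (n * χ n) := by
  have h1 := gs hχ hχ2 (n : ℤ)
  have h2 := gs hχ hχ2 (-(n : ℤ))
  have h3 : χ ((-(n : ℤ) : ℤ) : ZMod q) = χ n := by
    push_cast
    exact DirichletCharacter.Even.eval_neg χ _ heven
  rw [h3] at h2
  have h4 : ∀ u : ZMod q, χ u * (4 * Real.pi * n * Complex.I *
      (Real.cos (2 * Real.pi * n * ((u.val : ℝ) / q)) : ℂ)) =
      2 * Real.pi * n * Complex.I *
        (χ u * Complex.exp (2 * Real.pi * Complex.I * ((n : ℤ) : ℂ) * u.val / q)) +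
      2 * Real.pi * n * Complex.I *
        (χ u * Complex.exp (2 * Real.pi * Complex.I * ((-(n : ℤ) : ℤ) : ℂ) * u.val / q)) := by
    intro u
    have e1 : (2 * Real.pi * Complex.I * ((n : ℤ) : ℂ) * u.val / q) =
        ((2 * Real.pi * n * ((u.val : ℝ) / q) : ℝ) : ℂ) * Complex.I := by push_cast; ring
    have e2 : (2 * Real.pi * Complex.I * ((-(n : ℤ) : ℤ) : ℂ) * u.val / q) =
        -((2 * Real.pi * n * ((u.val : ℝ) / q) : ℝ) : ℂ) * Complex.I := by push_cast; ring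
    rw [e1, e2, Complex.ofReal_cos, Complex.cos]
    ring
  rw [Finset.sum_congr rfl fun u _ => h4 u, Finset.sum_add_distrib, ← Finset.mul_sum,
    ← Finset.mul_sum, h1, h2]
  push_cast
  ring

include h in
/-- the last step -/
theorem final_step (j : ℕ) {κ : ℂ} (hκ : κ ≠ 0) {W : ℂ → ℂ}
    (hWc : ContinuousOn W {z : ℂ | 0 < z.im})
    (hW : ∀ y : ℝ, 0 < y → HasSum (fun n : ℕ => κ * (χ n * ((n : ℂ) ^ j * (c n / (Real.sqrt n : ℂ)))) *
      a (n * y)) (tw χ W y))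
    (hfe : ∀ y : ℝ, 0 < y → tw χ W y = -((((q * y) ^ (2 * j))⁻¹ : ℝ) : ℂ) *
      tw χ W (((q:ℝ) ^ 2 * y)⁻¹)) :
    ∃ L : ℂ → ℂ, Differentiable ℂ L ∧
      (∀ s : ℂ, 2 < s.re → LSeriesSummable (fun n => c n * χ n) s ∧ L s = LSeries (fun n => c n * χ n) s) ∧
      L (1 / 2) = 0 := by
  have hq0 : (0:ℝ) < q := by exact_mod_cast NeZero.pos q
  obtain ⟨C, hC⟩ := h.bound
  have hC0 : 0 ≤ C := by
    have := (norm_nonneg _).trans (hC 1)
    simpa using this
  set b : ℕ → ℂ := fun n => κ * (χ n * ((n : ℂ) ^ j * (c n / (Real.sqrt n : ℂ)))) with hb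
  have hb0 : b 0 = 0 := by simp [hb]
  have hbb : ∃ C' : ℝ, ∀ n, ‖b n‖ ≤ C' * (n : ℝ) ^ j := by
    refine ⟨‖κ‖ * C, fun n => ?_⟩
    rcases Nat.eq_zero_or_pos n with rfl | hn
    · rw [hb0, norm_zero]; positivity
    · have hn0 : (0:ℝ) < n := by exact_mod_cast hn
      have hs : 0 < Real.sqrt n := Real.sqrt_pos.2 hn0
      simp only [hb]
      rw [norm_mul, norm_mul, norm_mul, norm_pow, norm_div, Complex.norm_real, Complex.norm_natCast,
        Real.norm_of_nonneg hs.le]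
      have e1 : ‖c n‖ / Real.sqrt n ≤ C := by
        rw [div_le_iff₀ hs]; exact hC n
      have e2 : ‖χ n‖ ≤ 1 := χ.norm_le_one _
      calc ‖κ‖ * (‖χ n‖ * ((n : ℝ) ^ j * (‖c n‖ / Real.sqrt n))) ≤
            ‖κ‖ * (1 * ((n : ℝ) ^ j * C)) := by
              gcongr
        _ = _ := by ring
  obtain ⟨M, hMd, hM0, hMs⟩ := twist_mellin h.fn hb0 hbb (tw_cont hWc) hW hq0 hfe
  refine ⟨fun s => M (s + (j - 1 / 2)) * R (s + (j - 1 / 2)) / κ, ?_, ?_, ?_⟩
  · have e1 : Differentiable ℂ fun s : ℂ => s + ((j : ℂ) - 1 / 2) := by fun_prop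
    exact ((hMd.comp e1).mul (h.R_diff.comp e1)).div_const κ
  · intro s hs
    have hsum : LSeriesSummable (fun n => c n * χ n) s := by
      refine LSeriesSummable_of_le_const_mul_rpow (x := 3 / 2) (by linarith) ⟨C, fun n hn => ?_⟩
      have e2 : ‖χ n‖ ≤ 1 := χ.norm_le_one _
      rw [norm_mul]
      calc ‖c n‖ * ‖χ n‖ ≤ (C * Real.sqrt n) * 1 :=
            mul_le_mul (hC n) e2 (norm_nonneg _) (by positivity)
        _ = C * (n : ℝ) ^ ((3:ℝ) / 2 - 1) := by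
          rw [mul_one, Real.sqrt_eq_rpow]; norm_num
    refine ⟨hsum, ?_⟩
    set w : ℂ := s + (j - 1 / 2) with hw
    have hwre : (j : ℝ) + 1 < w.re := by
      have : w.re = s.re + (j - 1 / 2) := by
        rw [hw]
        simp
      rw [this]; linarith
    have hw0 : 0 < w.re := by
      have : (0:ℝ) ≤ j := Nat.cast_nonneg j
      linarith
    have h1 := ((hMs w hwre).mul_right (R w)).div_const κ
    have h2 : (fun n : ℕ => b n * (n : ℂ) ^ (-w) * Mel a w * R w / κ) =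
        LSeries.term (fun n => c n * χ n) s := by
      funext n
      rcases Nat.eq_zero_or_pos n with rfl | hn
      · rw [hb0, LSeries.term_zero]; simp
      · rw [LSeries.term_of_ne_zero hn.ne']
        have hn0 : (n : ℂ) ≠ 0 := by exact_mod_cast hn.ne'
        have hRM := h.R_mul w hw0
        have e1 : b n * (n : ℂ) ^ (-w) * Mel a w * R w / κ = b n * (n : ℂ) ^ (-w) / κ := by
          have : b n * (n : ℂ) ^ (-w) * Mel a w * R w / κ =
              b n * (n : ℂ) ^ (-w) * (R w * Mel a w) / κ := by ring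
          rw [this, hRM, mul_one]
        rw [e1]
        simp only [hb]
        have e2 : (n : ℂ) ^ (-w) = (n : ℂ) ^ (-s) * ((n : ℂ) ^ j)⁻¹ * (n : ℂ) ^ ((1:ℂ) / 2) := by
          have : -w = -s + -(j : ℂ) + (1:ℂ) / 2 := by rw [hw]; ring
          rw [this, Complex.cpow_add _ _ hn0, Complex.cpow_add _ _ hn0, Complex.cpow_neg _ (j : ℂ),
            Complex.cpow_natCast]
        have e3 : (Real.sqrt n : ℂ) = (n : ℂ) ^ ((1:ℂ) / 2) := by
          rw [Real.sqrt_eq_rpow, Complex.ofReal_cpow (Nat.cast_nonneg n)]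
          push_cast
          rfl
        have e4 : (n : ℂ) ^ ((1:ℂ) / 2) ≠ 0 := by
          rw [Ne, Complex.cpow_eq_zero_iff]; tauto
        rw [e2, e3, Complex.cpow_neg]
        have e5 : (n : ℂ) ^ j ≠ 0 := pow_ne_zero _ hn0
        have e6 : (n : ℂ) ^ s ≠ 0 := by
          rw [Ne, Complex.cpow_eq_zero_iff]; tauto
        field_simp
    rw [h2] at h1
    exact h1.tsum_eq.symm
  · have e1 : (1 / 2 : ℂ) + ((j : ℂ) - 1 / 2) = j := by ring
    simp only
    rw [e1, hM0, zero_mul, zero_div]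

end

theorem main {U : ℂ → ℂ} {a : ℝ → ℂ} {c : ℕ → ℂ} {R : ℂ → ℂ} (h : Dat U a c R)
    {q : ℕ} (hq : 1 < q) (χ : DirichletCharacter ℂ q) (hχ : χ.IsPrimitive) (hχ2 : χ ^ 2 = 1) :
    ∃ L : ℂ → ℂ, Differentiable ℂ L ∧
      (∀ s : ℂ, 2 < s.re → LSeriesSummable (fun n => c n * χ n) s ∧ L s = LSeries (fun n => c n * χ n) s) ∧
      L (1 / 2) = 0 := by
  have : NeZero q := ⟨by omega⟩
  have hpi : (Real.pi : ℂ) ≠ 0 := by exact_mod_cast Real.pi_pos.ne'
  rcases χ.even_or_odd with heven | hodd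
  · -- even characters: the derivative
    refine final_step h 1 (κ := 4 * Real.pi * Complex.I * tau χ)
      (mul_ne_zero (mul_ne_zero (mul_ne_zero (by norm_num) hpi) Complex.I_ne_zero) (tau_ne_zero hχ))
      (W := fun z => fderiv ℝ U z 1) ?_ ?_ ?_
    · have h1 : ContinuousOn (fderiv ℝ U) {z : ℂ | 0 < z.im} :=
        h.smooth.continuousOn_fderiv_of_isOpen isOpen_up (by norm_num)
      exact h1.clm_apply continuousOn_const
    · intro y hy
      have h1 : HasSum (fun n : ℕ => ∑ u : ZMod q, χ u * (c n / (Real.sqrt n : ℂ) * a (n * y) *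
          (4 * Real.pi * n * Complex.I * (Real.cos (2 * Real.pi * n * ((u.val : ℝ) / q)) : ℂ))))
          (tw χ (fun z => fderiv ℝ U z 1) y) := by
        unfold tw
        exact hasSum_sum fun u _ => (h.fourier' ((u.val : ℝ) / q) y hy).mul_left (χ u)
      refine h1.congr_fun fun n => ?_
      have h2 := tw_cos hχ hχ2 heven n
      have h3 : ∑ u : ZMod q, χ u * (c n / (Real.sqrt n : ℂ) * a (n * y) *
          (4 * Real.pi * n * Complex.I * (Real.cos (2 * Real.pi * n * ((u.val : ℝ) / q)) : ℂ))) =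
          c n / (Real.sqrt n : ℂ) * a (n * y) * ∑ u : ZMod q, χ u * (4 * Real.pi * n * Complex.I *
          (Real.cos (2 * Real.pi * n * ((u.val : ℝ) / q)) : ℂ)) := by
        rw [Finset.mul_sum]
        refine Finset.sum_congr rfl fun u _ => by ring
      rw [h3, h2]
      ring
    · intro y hy
      have h1 := tw_fe hχ2 (W := fun z => fderiv ℝ U z 1) (y := y)
        (ρ := -((((q * y) ^ 2)⁻¹ : ℝ) : ℂ)) (fun u => V_inv h u hy)
      rw [h1]
      have : χ (-1) = 1 := heven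
      rw [this, mul_one, mul_one]
  · -- odd characters
    refine final_step h 0 (κ := 2 * tau χ) (mul_ne_zero (by norm_num) (tau_ne_zero hχ))
      (W := U) h.smooth.continuousOn ?_ ?_
    · intro y hy
      have h1 : HasSum (fun n : ℕ => ∑ u : ZMod q, χ u * (c n / (Real.sqrt n : ℂ) * a (n * y) *
          (2 * Complex.I * (Real.sin (2 * Real.pi * n * ((u.val : ℝ) / q)) : ℂ))))
          (tw χ U y) := by
        unfold tw
        exact hasSum_sum fun u _ => (h.fourier ((u.val : ℝ) / q) y hy).mul_left (χ u)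
      refine h1.congr_fun fun n => ?_
      have h2 := tw_sin hχ hχ2 hodd n
      have h3 : ∑ u : ZMod q, χ u * (c n / (Real.sqrt n : ℂ) * a (n * y) *
          (2 * Complex.I * (Real.sin (2 * Real.pi * n * ((u.val : ℝ) / q)) : ℂ))) =
          c n / (Real.sqrt n : ℂ) * a (n * y) * ∑ u : ZMod q, χ u * (2 * Complex.I *
          (Real.sin (2 * Real.pi * n * ((u.val : ℝ) / q)) : ℂ)) := by
        rw [Finset.mul_sum]
        refine Finset.sum_congr rfl fun u _ => by ring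
      rw [h3, h2]
      ring
    · intro y hy
      have h1 := tw_fe hχ2 (W := U) (y := y) (ρ := 1) (fun u => U_inv h u hy)
      rw [h1]
      have : χ (-1) = -1 := hodd
      rw [this]
      simp

end Pool.Agent.V8H85.OMB
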