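import Mathlib

/-!
# Hecke operators on functions on the upper half plane (weight 0, level 1), elementary relations

`T n f z = ∑_{d ∣ n} ∑_{b < d} f ((n/d) z + b) / d)`.
* `comm`: `T p (T q f) = T q (T p f)` for primes `p, q` and `f` of period one.
* `eig`: an eigenfunction of all `T p` is an eigenfunction of all `T n`.
* `inv`: `T p f` is invariant under `SL(2,ℤ)` if `f` is.
-/

set_option autoImplicit false
open UpperHalfPlane
open scoped MatrixGroups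

namespace Pool.Agent.V8H85.OMH

noncomputable section

/-- the Hecke operator `T n` (without normalising factor) -/
def T (n : ℕ) (f : ℍ → ℂ) (z : ℍ) : ℂ :=
  ∑ d ∈ n.divisors, ∑ b ∈ Finset.range d,
    f (ofComplex ((((n / d : ℕ) : ℂ) * (z : ℂ) + (b : ℂ)) / (d : ℂ)))

/-- period one on the upper half plane -/
def Per (g : ℂ → ℂ) : Prop := ∀ τ : ℂ, 0 < τ.im → g (τ + 1) = g τ

/-- sums over residues -/
def S (g : ℂ → ℂ) (N : ℕ) (τ : ℂ) : ℂ := ∑ b ∈ Finset.range N, g ((τ + (b : ℂ)) / (N : ℂ))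

/-- Hecke operators on functions on `ℂ` -/
def TT (g : ℂ → ℂ) (n : ℕ) (τ : ℂ) : ℂ := ∑ d ∈ n.divisors, S g d (((n / d : ℕ) : ℂ) * τ)

theorem Per.nat {g : ℂ → ℂ} (hg : Per g) (k : ℕ) {τ : ℂ} (hτ : 0 < τ.im) : g (τ + k) = g τ := by
  induction k with
  | zero => simp
  | succ k ih =>
    rw [← ih, ← hg (τ + k) (by simpa using hτ)]
    congr 1; push_cast; ring

theorem im_div_nat {τ : ℂ} (hτ : 0 < τ.im) {N : ℕ} (hN : 0 < N) (b : ℂ) (hb : b.im = 0) :
    0 < ((τ + b) / (N : ℂ)).im := by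
  rw [Complex.div_natCast_im]
  have : (0:ℝ) < N := by exact_mod_cast hN
  rw [Complex.add_im, hb, add_zero]
  positivity

theorem im_mul_nat {τ : ℂ} (hτ : 0 < τ.im) {a : ℕ} (ha : 0 < a) : 0 < ((a : ℂ) * τ).im := by
  have : (0:ℝ) < a := by exact_mod_cast ha
  rw [Complex.mul_im]
  simp
  positivity

theorem sum_eq {g : ℂ → ℂ} (hg : Per g) {N : ℕ} [NeZero N] {ι : Type*} [Fintype ι] (φ : ι → ℕ)
    (hφ : Function.Bijective (fun i => (φ i : ZMod N))) {τ : ℂ} (hτ : 0 < τ.im) :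
    ∑ i, g ((τ + (φ i : ℂ)) / (N : ℂ)) = ∑ r : ZMod N, g ((τ + (r.val : ℂ)) / (N : ℂ)) := by
  have hN : 0 < N := NeZero.pos N
  have hNC : (N : ℂ) ≠ 0 := by exact_mod_cast hN.ne'
  have key : ∀ m : ℕ, g ((τ + (m : ℂ)) / (N : ℂ)) = g ((τ + (((m : ZMod N).val : ℕ) : ℂ)) / (N : ℂ)) := by
    intro m
    rw [ZMod.val_natCast, ← hg.nat (m / N) (im_div_nat hτ hN ((m % N : ℕ) : ℂ) (by simp))]
    congr 1
    have h := Nat.div_add_mod m N
    have h2 : ((N : ℂ) * ((m / N : ℕ) : ℂ) + ((m % N : ℕ) : ℂ)) = (m : ℂ) := by exact_mod_cast h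
    field_simp
    rw [← h2]; ring
  calc ∑ i, g ((τ + (φ i : ℂ)) / (N : ℂ)) = ∑ i, (fun r : ZMod N => g ((τ + (r.val : ℂ)) / (N : ℂ))) ((φ i : ZMod N)) :=
        Finset.sum_congr rfl fun i _ => key (φ i)
    _ = _ := hφ.sum_comp (fun r : ZMod N => g ((τ + (r.val : ℂ)) / (N : ℂ)))

theorem S_eq_zmod {g : ℂ → ℂ} (hg : Per g) {N : ℕ} [NeZero N] {τ : ℂ} (hτ : 0 < τ.im) :
    S g N τ = ∑ r : ZMod N, g ((τ + (r.val : ℂ)) / (N : ℂ)) := by
  unfold S
  rw [Finset.sum_range]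
  apply sum_eq hg (fun i : Fin N => (i : ℕ)) _ hτ
  rw [Fintype.bijective_iff_injective_and_card]
  refine ⟨?_, by simp [ZMod.card]⟩
  intro i j hij
  simp only at hij
  rw [ZMod.natCast_eq_natCast_iff'] at hij
  rw [Nat.mod_eq_of_lt i.2, Nat.mod_eq_of_lt j.2] at hij
  exact Fin.ext hij

theorem S_eq {g : ℂ → ℂ} (hg : Per g) {N : ℕ} [NeZero N] {ι : Type*} [Fintype ι] (φ : ι → ℕ)
    (hφ : Function.Bijective (fun i => (φ i : ZMod N))) {τ : ℂ} (hτ : 0 < τ.im) :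
    ∑ i, g ((τ + (φ i : ℂ)) / (N : ℂ)) = S g N τ := by
  rw [sum_eq hg φ hφ hτ, S_eq_zmod hg hτ]

theorem S_shift {g : ℂ → ℂ} (hg : Per g) {N : ℕ} (hN : 0 < N) {τ : ℂ} (hτ : 0 < τ.im) (m : ℕ) :
    S g N (τ + m) = S g N τ := by
  have : NeZero N := ⟨hN.ne'⟩
  rw [← S_eq hg (fun i : Fin N => m + (i : ℕ)) _ hτ]
  · unfold S
    rw [Finset.sum_range]
    apply Finset.sum_congr rfl
    intro i _
    congr 2
    push_cast; ring
  · rw [Fintype.bijective_iff_injective_and_card]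
    refine ⟨?_, by simp [ZMod.card]⟩
    intro i j hij
    simp only [Nat.cast_add, add_right_inj] at hij
    rw [ZMod.natCast_eq_natCast_iff'] at hij
    rw [Nat.mod_eq_of_lt i.2, Nat.mod_eq_of_lt j.2] at hij
    exact Fin.ext hij

theorem comp_sum {g : ℂ → ℂ} (hg : Per g) {a d e : ℕ} (ha : 0 < a) (hd : 0 < d) (he : 0 < e)
    (hcop : Nat.Coprime a d) {σ : ℂ} (hσ : 0 < σ.im) :
    ∑ b ∈ Finset.range d, S g e ((a : ℂ) * ((σ + (b : ℂ)) / (d : ℂ))) = S g (d * e) ((a : ℂ) * σ) := by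
  have : NeZero (d * e) := ⟨(Nat.mul_pos hd he).ne'⟩
  have hdC : (d : ℂ) ≠ 0 := by exact_mod_cast hd.ne'
  have heC : (e : ℂ) ≠ 0 := by exact_mod_cast he.ne'
  rw [← S_eq hg (fun i : Fin d × Fin e => a * (i.1 : ℕ) + d * (i.2 : ℕ)) _ (im_mul_nat hσ ha)]
  · rw [Fintype.sum_prod_type, Finset.sum_range]
    apply Finset.sum_congr rfl
    intro b _
    unfold S
    rw [Finset.sum_range]
    apply Finset.sum_congr rfl
    intro c _
    congr 1
    push_cast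
    field_simp
    ring
  · rw [Fintype.bijective_iff_injective_and_card]
    refine ⟨?_, by simp [ZMod.card]⟩
    rintro ⟨b, c⟩ ⟨b', c'⟩ h
    simp only at h
    rw [ZMod.natCast_eq_natCast_iff] at h
    have h1 : a * (b : ℕ) ≡ a * (b' : ℕ) [MOD d] := by
      have h2 := h.of_mul_right e
      have h3 : a * (b : ℕ) + d * (c : ℕ) ≡ a * (b : ℕ) [MOD d] := by
        simp [Nat.ModEq]
      have h4 : a * (b' : ℕ) + d * (c' : ℕ) ≡ a * (b' : ℕ) [MOD d] := by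
        simp [Nat.ModEq]
      exact h3.symm.trans (h2.trans h4)
    have h2 : (b : ℕ) ≡ (b' : ℕ) [MOD d] := Nat.ModEq.cancel_left_of_coprime (by rwa [Nat.gcd_comm]) h1
    have h3 : (b : ℕ) = (b' : ℕ) := by
      have := h2
      rw [Nat.ModEq, Nat.mod_eq_of_lt b.2, Nat.mod_eq_of_lt b'.2] at this
      exact this
    rw [h3] at h
    have h4 : d * (c : ℕ) ≡ d * (c' : ℕ) [MOD d * e] := Nat.ModEq.add_left_cancel' _ h
    have h5 : (c : ℕ) ≡ (c' : ℕ) [MOD e] := Nat.ModEq.mul_left_cancel' hd.ne' h4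
    rw [Nat.ModEq, Nat.mod_eq_of_lt c.2, Nat.mod_eq_of_lt c'.2] at h5
    exact Prod.ext (Fin.ext h3) (Fin.ext h5)

theorem TT_congr {g G : ℂ → ℂ} {c : ℂ} (h : ∀ τ : ℂ, 0 < τ.im → G τ = c * g τ) (n : ℕ) {τ : ℂ}
    (hτ : 0 < τ.im) : TT G n τ = c * TT g n τ := by
  unfold TT S
  rw [Finset.mul_sum]
  apply Finset.sum_congr rfl
  intro d hd
  rw [Finset.mul_sum]
  apply Finset.sum_congr rfl
  intro b _
  have hd' := Nat.pos_of_mem_divisors hd
  have hnd : 0 < n / d := Nat.div_pos (Nat.divisor_le hd) hd'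
  exact h _ (im_div_nat (im_mul_nat hτ hnd) hd' _ (by simp))

theorem TT_one (g : ℂ → ℂ) (τ : ℂ) : TT g 1 τ = g τ := by
  simp [TT, S]

theorem sum_divisors_coprime {m n : ℕ} (hm : 0 < m) (hn : 0 < n) (hmn : m.Coprime n) (F : ℕ → ℂ) :
    ∑ d ∈ m.divisors, ∑ e ∈ n.divisors, F (d * e) = ∑ D ∈ (m * n).divisors, F D := by
  rw [← Finset.sum_product' m.divisors n.divisors (fun d e => F (d * e))]
  apply Finset.sum_nbij' (i := fun x : ℕ × ℕ => x.1 * x.2) (j := fun D : ℕ => (Nat.gcd D m, Nat.gcd D n))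
  · rintro ⟨d, e⟩ h
    simp only [Finset.mem_product, Nat.mem_divisors] at h ⊢
    exact ⟨Nat.mul_dvd_mul h.1.1 h.2.1, (Nat.mul_pos hm hn).ne'⟩
  · intro D h
    simp only [Finset.mem_product, Nat.mem_divisors] at h ⊢
    exact ⟨⟨Nat.gcd_dvd_right _ _, hm.ne'⟩, Nat.gcd_dvd_right _ _, hn.ne'⟩
  · rintro ⟨d, e⟩ h
    simp only [Finset.mem_product, Nat.mem_divisors] at h ⊢
    have h1 : Nat.Coprime e m := (Nat.Coprime.coprime_dvd_right h.2.1 hmn).symm
    have h2 : Nat.Coprime d n := Nat.Coprime.coprime_dvd_left h.1.1 hmn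
    rw [Nat.Coprime.gcd_mul_right_cancel d h1, Nat.Coprime.gcd_mul_left_cancel e h2,
      Nat.gcd_eq_left h.1.1, Nat.gcd_eq_left h.2.1]
  · intro D h
    simp only [Nat.mem_divisors] at h ⊢
    rw [← Nat.Coprime.gcd_mul D hmn, Nat.gcd_eq_left h.1]
  · rintro ⟨d, e⟩ _
    rfl

theorem TT_mul {g : ℂ → ℂ} (hg : Per g) {m n : ℕ} (hm : 0 < m) (hn : 0 < n) (hmn : m.Coprime n)
    {τ : ℂ} (hτ : 0 < τ.im) : TT (TT g n) m τ = TT g (m * n) τ := by
  have hR : TT g (m * n) τ = ∑ d ∈ m.divisors, ∑ e ∈ n.divisors,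
      S g (d * e) (((m * n / (d * e) : ℕ) : ℂ) * τ) :=
    (sum_divisors_coprime hm hn hmn (fun D => S g D (((m * n / D : ℕ) : ℂ) * τ))).symm
  rw [hR]
  unfold TT
  apply Finset.sum_congr rfl
  intro d hd
  have hd' := Nat.pos_of_mem_divisors hd
  have hdm := Nat.dvd_of_mem_divisors hd
  have hmd : 0 < m / d := Nat.div_pos (Nat.divisor_le hd) hd'
  conv_lhs => unfold S
  rw [Finset.sum_comm]
  apply Finset.sum_congr rfl
  intro e he
  have he' := Nat.pos_of_mem_divisors he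
  have hen := Nat.dvd_of_mem_divisors he
  have hne : 0 < n / e := Nat.div_pos (Nat.divisor_le he) he'
  have hcop : Nat.Coprime (n / e) d :=
    Nat.Coprime.coprime_dvd_left (Nat.div_dvd_of_dvd hen) (Nat.Coprime.coprime_dvd_right hdm hmn.symm)
  have key := comp_sum hg hne hd' he' hcop (im_mul_nat hτ hmd)
  have h1 : ((m * n / (d * e) : ℕ) : ℂ) * τ = ((n / e : ℕ) : ℂ) * (((m / d : ℕ) : ℂ) * τ) := by
    rw [← Nat.div_mul_div_comm hdm hen]; push_cast; ring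
  rw [h1, ← key]
  rfl

theorem TT_pow {g : ℂ → ℂ} (hg : Per g) {p : ℕ} (hp : p.Prime) (m : ℕ)
    {τ : ℂ} (hτ : 0 < τ.im) :
    TT (TT g (p ^ (m + 1))) p τ = TT g (p ^ (m + 2)) τ + p * TT g (p ^ m) τ := by
  have hp0 : 0 < p := hp.pos
  have hpC : (p : ℂ) ≠ 0 := by exact_mod_cast hp0.ne'
  have hTT : ∀ (k : ℕ) (σ : ℂ), TT g (p ^ k) σ =
      ∑ j ∈ Finset.range (k + 1), S g (p ^ j) (((p ^ (k - j) : ℕ) : ℂ) * σ) := by
    intro k σ
    unfold TT
    rw [Nat.sum_divisors_prime_pow hp]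
    apply Finset.sum_congr rfl
    intro j hj
    rw [Nat.pow_div (Nat.lt_succ_iff.1 (Finset.mem_range.1 hj)) hp0]
  have h1 : TT (TT g (p ^ (m + 1))) p τ = (∑ b ∈ Finset.range p, TT g (p ^ (m + 1)) ((τ + (b : ℂ)) / (p : ℂ))) +
      TT g (p ^ (m + 1)) ((p : ℂ) * τ) := by
    conv_lhs => unfold TT
    rw [hp.sum_divisors]
    congr 1
    · rw [Nat.div_self hp0]
      simp only [S, TT, Nat.cast_one, one_mul]
    · simp [S, TT]
  rw [h1]
  have h2 : ∀ b ∈ Finset.range p, TT g (p ^ (m + 1)) ((τ + (b : ℂ)) / (p : ℂ)) =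
      S g (p ^ (m + 1)) (((1 : ℕ) : ℂ) * ((τ + (b : ℂ)) / (p : ℂ))) + TT g (p ^ m) τ := by
    intro b _
    rw [hTT, Finset.sum_range_succ, add_comm, Nat.sub_self, pow_zero]
    congr 1
    rw [hTT]
    apply Finset.sum_congr rfl
    intro j hj
    have hj' : j ≤ m := Nat.lt_succ_iff.1 (Finset.mem_range.1 hj)
    have e1 : m + 1 - j = (m - j) + 1 := by omega
    have e2 : ((p ^ (m + 1 - j) : ℕ) : ℂ) * ((τ + (b : ℂ)) / (p : ℂ)) =
        ((p ^ (m - j) : ℕ) : ℂ) * τ + ((p ^ (m - j) * b : ℕ) : ℂ) := by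
      rw [e1, pow_succ]
      push_cast
      field_simp
    rw [e2, S_shift hg (Nat.pow_pos hp0) (im_mul_nat hτ (Nat.pow_pos hp0))]
  rw [Finset.sum_congr rfl h2, Finset.sum_add_distrib,
    comp_sum hg one_pos hp0 (Nat.pow_pos hp0) (Nat.coprime_one_left p) hτ]
  rw [hTT (m + 2), Finset.sum_range_succ, Nat.sub_self, pow_zero]
  rw [hTT (m + 1) ((p : ℂ) * τ)]
  have h3 : ∀ j ∈ Finset.range (m + 1 + 1), S g (p ^ j) (((p ^ (m + 1 - j) : ℕ) : ℂ) * ((p : ℂ) * τ)) =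
      S g (p ^ j) (((p ^ (m + 2 - j) : ℕ) : ℂ) * τ) := by
    intro j hj
    have hj' : j ≤ m + 1 := Nat.lt_succ_iff.1 (Finset.mem_range.1 hj)
    have e1 : m + 2 - j = (m + 1 - j) + 1 := by omega
    rw [e1, pow_succ]
    congr 1
    push_cast; ring
  rw [Finset.sum_congr rfl h3]
  simp only [Finset.sum_const, Finset.card_range, nsmul_eq_mul]
  have e4 : p * p ^ (m + 1) = p ^ (m + 2) := by ring
  rw [e4]
  ring

theorem TT_eig {g : ℂ → ℂ} (hg : Per g)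
    (h : ∀ p : ℕ, p.Prime → ∃ c : ℂ, ∀ τ : ℂ, 0 < τ.im → TT g p τ = c * g τ) :
    ∀ n : ℕ, 0 < n → ∃ c : ℂ, ∀ τ : ℂ, 0 < τ.im → TT g n τ = c * g τ := by
  intro n
  induction n using Nat.recOnPosPrimePosCoprime with
  | zero => intro h; exact absurd h (lt_irrefl 0)
  | one => intro _; exact ⟨1, fun τ _ => by rw [TT_one, one_mul]⟩
  | prime_pow p k hp _ =>
    intro _
    obtain ⟨c, hc⟩ := h p hp
    suffices H : ∀ k : ℕ, (∃ c : ℂ, ∀ τ : ℂ, 0 < τ.im → TT g (p ^ k) τ = c * g τ) ∧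
        (∃ c : ℂ, ∀ τ : ℂ, 0 < τ.im → TT g (p ^ (k + 1)) τ = c * g τ) from (H k).1
    intro k
    induction k with
    | zero =>
      refine ⟨⟨1, fun τ _ => by rw [pow_zero, TT_one, one_mul]⟩, c, ?_⟩
      intro τ hτ
      rw [zero_add, pow_one]
      exact hc τ hτ
    | succ k ih =>
      refine ⟨ih.2, ?_⟩
      obtain ⟨⟨c0, hc0⟩, c1, hc1⟩ := ih
      refine ⟨c1 * c - p * c0, fun τ hτ => ?_⟩
      have e := TT_pow hg hp k hτ
      rw [TT_congr hc1 p hτ, hc τ hτ, hc0 τ hτ] at e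
      linear_combination -e
  | coprime a b ha hb hab iha ihb =>
    intro _
    obtain ⟨ca, hca⟩ := iha (by omega)
    obtain ⟨cb, hcb⟩ := ihb (by omega)
    refine ⟨cb * ca, fun τ hτ => ?_⟩
    rw [← TT_mul hg (by omega) (by omega) hab hτ, TT_congr hcb a hτ, hca τ hτ, mul_assoc]

theorem T_eq (n : ℕ) (f : ℍ → ℂ) (z : ℍ) : T n f z = TT (f ∘ ofComplex) n z := rfl

theorem T_eq' (n : ℕ) (f : ℍ → ℂ) {τ : ℂ} (hτ : 0 < τ.im) :
    T n f (ofComplex τ) = TT (f ∘ ofComplex) n τ := by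
  rw [T_eq, ofComplex_apply_of_im_pos hτ]

theorem per_of {f : ℍ → ℂ} (hf : ∀ z : ℍ, f ((1 : ℝ) +ᵥ z) = f z) : Per (f ∘ ofComplex) := by
  intro τ hτ
  have hτ' : 0 < (τ + 1).im := by simpa using hτ
  simp only [Function.comp_apply]
  rw [← hf (ofComplex τ)]
  congr 1
  ext
  rw [UpperHalfPlane.coe_vadd, ofComplex_apply_of_im_pos hτ, ofComplex_apply_of_im_pos hτ']
  simp [add_comm]

theorem comm {f : ℍ → ℂ} (hf : ∀ z : ℍ, f ((1 : ℝ) +ᵥ z) = f z) {p q : ℕ} (hp : p.Prime) (hq : q.Prime) :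
    T p (T q f) = T q (T p f) := by
  have hg := per_of hf
  by_cases hpq : p = q
  · rw [hpq]
  have hcop : p.Coprime q := (Nat.coprime_primes hp hq).2 hpq
  funext z
  have e1 : T p (T q f) z = TT (f ∘ ofComplex) (p * q) z := by
    rw [T_eq, TT_congr (g := TT (f ∘ ofComplex) q) (c := 1)
      (fun τ hτ => by rw [one_mul]; exact T_eq' q f hτ) p z.im_pos, one_mul]
    exact TT_mul hg hp.pos hq.pos hcop z.im_pos
  have e2 : T q (T p f) z = TT (f ∘ ofComplex) (q * p) z := by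
    rw [T_eq, TT_congr (g := TT (f ∘ ofComplex) p) (c := 1)
      (fun τ hτ => by rw [one_mul]; exact T_eq' p f hτ) q z.im_pos, one_mul]
    exact TT_mul hg hq.pos hp.pos hcop.symm z.im_pos
  rw [e1, e2, mul_comm]

theorem eig {f : ℍ → ℂ} (hf : ∀ z : ℍ, f ((1 : ℝ) +ᵥ z) = f z)
    (h : ∀ p : ℕ, p.Prime → ∃ c : ℂ, ∀ z, T p f z = c * f z) :
    ∀ n : ℕ, 0 < n → ∃ c : ℂ, ∀ z, T n f z = c * f z := by
  intro n hn
  obtain ⟨c, hc⟩ := TT_eig (per_of hf) (fun p hp => by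
    obtain ⟨c, hc⟩ := h p hp
    refine ⟨c, fun τ hτ => ?_⟩
    rw [← T_eq' p f hτ, hc]
    rfl) n hn
  refine ⟨c, fun z => ?_⟩
  rw [T_eq, hc z z.im_pos]
  simp

/-- integral Moebius maps -/
theorem moebius {f : ℍ → ℂ} (hf : ∀ γ : SL(2, ℤ), ∀ z : ℍ, f (γ • z) = f z) {τ τ' : ℂ} (hτ : 0 < τ.im)
    (a b c d : ℤ) (hdet : a * d - b * c = 1) (hne : (c : ℂ) * τ + d ≠ 0)
    (h : τ' * ((c : ℂ) * τ + d) = (a : ℂ) * τ + b) :
    (f ∘ ofComplex) τ' = (f ∘ ofComplex) τ := by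
  let γ : SL(2, ℤ) := ⟨!![a, b; c, d], by rw [Matrix.det_fin_two_of]; exact hdet⟩
  simp only [Function.comp_apply]
  rw [← hf γ (ofComplex τ)]
  congr 1
  have h1 : ((γ • ofComplex τ : ℍ) : ℂ) = τ' := by
    rw [UpperHalfPlane.coe_specialLinearGroup_apply, ofComplex_apply_of_im_pos hτ]
    simp only [γ]
    have : τ' = ((a : ℂ) * τ + b) / ((c : ℂ) * τ + d) := by
      rw [eq_div_iff hne, h]
    rw [this]
    simp
  rw [← h1, ofComplex_apply]

theorem inv_S {f : ℍ → ℂ} (hf : ∀ γ : SL(2, ℤ), ∀ z : ℍ, f (γ • z) = f z) {p : ℕ} (hp : p.Prime)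
    {z w : ℂ} (hz : 0 < z.im) (hw : 0 < w.im) (hwz : w * z = -1) :
    TT (f ∘ ofComplex) p w = TT (f ∘ ofComplex) p z := by
  have : Fact p.Prime := ⟨hp⟩
  set g := f ∘ ofComplex with hgdef
  have hp0 : 0 < p := hp.pos
  have hpC : (p : ℂ) ≠ 0 := by exact_mod_cast hp0.ne'
  have hz0 : z ≠ 0 := by rintro rfl; simp at hz
  have hg : Per g := by
    intro τ hτ
    apply moebius hf hτ 1 1 0 1 (by norm_num) (by simp)
    push_cast; ring
  have h1 : ∀ τ : ℂ, TT g p τ = S g p τ + g ((p : ℂ) * τ) := by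
    intro τ
    unfold TT
    rw [hp.sum_divisors, Nat.div_self hp0]
    simp [S]
  rw [h1, h1, S_eq_zmod hg hw, S_eq_zmod hg hz]
  -- the involution r ↦ - r⁻¹
  let e : ZMod p ≃ ZMod p :=
    { toFun := fun r => -r⁻¹
      invFun := fun r => -r⁻¹
      left_inv := fun r => by simp [inv_neg]
      right_inv := fun r => by simp [inv_neg] }
  rw [← Equiv.sum_comp e (fun r : ZMod p => g ((z + (r.val : ℂ)) / (p : ℂ)))]
  have hpw : ∀ r : ZMod p, r ≠ 0 → g ((w + (r.val : ℂ)) / (p : ℂ)) = g ((z + ((e r).val : ℂ)) / (p : ℂ)) := by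
    intro r hr
    set b : ℕ := r.val with hb
    set b' : ℕ := (e r).val with hb'
    have hbb : ((b * b' + 1 : ℕ) : ZMod p) = 0 := by
      push_cast
      rw [hb, hb', ZMod.natCast_zmod_val, ZMod.natCast_zmod_val]
      simp only [e, Equiv.coe_fn_mk]
      rw [mul_neg, mul_inv_cancel₀ hr]; ring
    rw [ZMod.natCast_eq_zero_iff] at hbb
    obtain ⟨k, hk⟩ := hbb
    have hkC : ((b : ℂ) * b' + 1) = p * k := by exact_mod_cast hk
    have hkZ : ((b : ℤ) * b' + 1) = p * k := by exact_mod_cast hk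
    apply moebius hf (im_div_nat hz hp0 _ (by simp)) (b : ℤ) (-(k : ℤ)) (p : ℤ) (-(b' : ℤ))
    · linear_combination -hkZ
    · push_cast
      have : (p : ℂ) * ((z + (b' : ℂ)) / (p : ℂ)) + -(b' : ℂ) = z := by field_simp; ring
      rw [this]; exact hz0
    · push_cast
      have : (p : ℂ) * ((z + (b' : ℂ)) / (p : ℂ)) + -(b' : ℂ) = z := by field_simp; ring
      rw [this]
      field_simp
      linear_combination hwz - hkC
  have h0w : g ((w + (((0 : ZMod p).val : ℕ) : ℂ)) / (p : ℂ)) = g ((p : ℂ) * z) := by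
    apply moebius hf (im_mul_nat hz hp0) 0 (-1) 1 0 (by norm_num)
    · push_cast; simp [hz0, hpC]
    · simp
      field_simp
      linear_combination hwz
  have h0z : g ((z + (((e 0).val : ℕ) : ℂ)) / (p : ℂ)) = g ((p : ℂ) * w) := by
    have hw0 : w ≠ 0 := by rintro rfl; simp at hw
    have : (e 0) = 0 := by simp [e]
    rw [this]
    apply moebius hf (im_mul_nat hw hp0) 0 (-1) 1 0 (by norm_num)
    · push_cast; simp [hw0, hpC]
    · simp
      field_simp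
      linear_combination hwz
  rw [← Finset.add_sum_erase Finset.univ (fun r : ZMod p => g ((w + (r.val : ℂ)) / (p : ℂ))) (Finset.mem_univ 0),
    ← Finset.add_sum_erase Finset.univ (fun r : ZMod p => g ((z + ((e r).val : ℂ)) / (p : ℂ))) (Finset.mem_univ 0)]
  rw [h0w, h0z, Finset.sum_congr rfl (fun r hr => hpw r (Finset.ne_of_mem_erase hr))]
  ring

theorem inv {f : ℍ → ℂ} (hf : ∀ γ : SL(2, ℤ), ∀ z : ℍ, f (γ • z) = f z) {p : ℕ} (hp : p.Prime) :
    ∀ γ : SL(2, ℤ), ∀ z : ℍ, T p f (γ • z) = T p f z := by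
  intro γ
  have hmem : γ ∈ Subgroup.closure {ModularGroup.S, ModularGroup.T} := by
    rw [_root_.SpecialLinearGroup.SL2Z_generators]; trivial
  have hg : Per (f ∘ ofComplex) := by
    intro τ hτ
    apply moebius hf hτ 1 1 0 1 (by norm_num) (by simp)
    push_cast; ring
  induction hmem using Subgroup.closure_induction with
  | one => intro z; simp
  | mem g hgm =>
    intro z
    simp only [Set.mem_insert_iff, Set.mem_singleton_iff] at hgm
    rcases hgm with rfl | rfl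
    · rw [T_eq, T_eq]
      apply inv_S hf hp z.im_pos (ModularGroup.S • z).im_pos
      rw [UpperHalfPlane.coe_specialLinearGroup_apply]
      have hz0 : (z : ℂ) ≠ 0 := UpperHalfPlane.ne_zero z
      simp [ModularGroup.S]
      field_simp
    · rw [T_eq, T_eq]
      have e1 : ((ModularGroup.T • z : ℍ) : ℂ) = (z : ℂ) + 1 := by
        rw [UpperHalfPlane.coe_specialLinearGroup_apply]
        simp [ModularGroup.T]
      rw [e1]
      unfold TT
      apply Finset.sum_congr rfl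
      intro d hd
      have hd' := Nat.pos_of_mem_divisors hd
      have hnd : 0 < p / d := Nat.div_pos (Nat.divisor_le hd) hd'
      rw [mul_add, mul_one]
      exact S_shift hg hd' (im_mul_nat z.im_pos hnd) _
  | mul x y _ _ hx hy => intro z; rw [mul_smul, hx, hy]
  | inv x _ hx => intro z; rw [← hx (x⁻¹ • z), smul_inv_smul]

end

end Pool.Agent.V8H85.OMH
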