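import Pool.Agent.V8H85.OM.M

/-!
# Mellin transform of a Dirichlet-type series in a decaying function with an odd functional equation
-/

set_option autoImplicit false
open MeasureTheory Set Filter Topology Asymptotics

namespace Pool.Agent.V8H85.OMB

open Pool.Agent.V8H85.OMM (Mel)

/-- the hypotheses on the function -/
structure Fn (a : ℝ → ℂ) : Prop where
  cont : ContinuousOn a (Ioi 0)
  bdd : ∃ B : ℝ, ∀ y : ℝ, 0 < y → ‖a y‖ ≤ B
  decay : ∃ C : ℝ, ∀ y : ℝ, 1 ≤ y → ‖a y‖ ≤ C * Real.exp (-Real.pi * y)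

theorem Fn.conv {a : ℝ → ℂ} (ha : Fn a) {w : ℂ} (hw : 0 < w.re) : MellinConvergent a w := by
  obtain ⟨B, hB⟩ := ha.bdd
  obtain ⟨C, hC⟩ := ha.decay
  refine mellinConvergent_of_isBigO_rpow_exp (a := Real.pi) (b := 0) Real.pi_pos
    (ha.cont.locallyIntegrableOn measurableSet_Ioi) ?_ ?_ hw
  · refine IsBigO.of_bound C ?_
    filter_upwards [eventually_ge_atTop 1] with y hy
    simpa [abs_of_pos (Real.exp_pos _)] using hC y hy
  · refine IsBigO.of_bound B ?_
    filter_upwards [self_mem_nhdsWithin] with y hy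
    have hy' : (0:ℝ) < y := hy
    simpa using hB y hy'

theorem norm_decay {a : ℝ → ℂ} (ha : Fn a) {b : ℕ → ℂ} {j : ℕ} (hb0 : b 0 = 0)
    (hb : ∃ C : ℝ, ∀ n, ‖b n‖ ≤ C * (n : ℝ) ^ j) {F : ℝ → ℂ}
    (hF : ∀ y : ℝ, 0 < y → HasSum (fun n : ℕ => b n * a (n * y)) (F y)) :
    ∃ D : ℝ, 0 ≤ D ∧ ∀ y : ℝ, 1 ≤ y → ‖F y‖ ≤ D * Real.exp (-Real.pi * y) := by
  obtain ⟨C, hC⟩ := ha.decay
  obtain ⟨C', hC'⟩ := hb
  have hC0 : 0 ≤ C := by
    have := (norm_nonneg _).trans (hC 1 le_rfl)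
    by_contra h
    push Not at h
    have h2 := mul_neg_of_neg_of_pos h (Real.exp_pos (-Real.pi * 1))
    linarith
  have hC'0 : 0 ≤ C' := by
    have := (norm_nonneg _).trans (hC' 1)
    simpa using this
  have hs := (Real.summable_pow_mul_exp_neg_nat_mul j Real.pi_pos).mul_left
    (C' * C * Real.exp Real.pi)
  refine ⟨∑' n : ℕ, C' * C * Real.exp Real.pi * ((n : ℝ) ^ j * Real.exp (-Real.pi * n)),
    tsum_nonneg fun n => by positivity, fun y hy => ?_⟩
  have hy0 : 0 < y := by linarith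
  refine (hF y hy0).norm_le_of_bounded (hs.hasSum.mul_right (Real.exp (-Real.pi * y))) fun n => ?_
  rcases Nat.eq_zero_or_pos n with rfl | hn
  · rw [hb0, zero_mul, norm_zero]
    positivity
  · have hn1 : (1 : ℝ) ≤ n := by exact_mod_cast hn
    have hny : 1 ≤ (n : ℝ) * y := by nlinarith
    rw [norm_mul]
    calc ‖b n‖ * ‖a (n * y)‖ ≤ (C' * (n : ℝ) ^ j) * (C * Real.exp (-Real.pi * (n * y))) :=
          mul_le_mul (hC' n) (hC _ hny) (norm_nonneg _) (by positivity)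
      _ ≤ (C' * (n : ℝ) ^ j) * (C * (Real.exp Real.pi * Real.exp (-Real.pi * n) *
            Real.exp (-Real.pi * y))) := by
          apply mul_le_mul_of_nonneg_left _ (by positivity)
          apply mul_le_mul_of_nonneg_left _ hC0
          rw [← Real.exp_add, ← Real.exp_add]
          apply Real.exp_le_exp.2
          have : 0 ≤ (n - 1 : ℝ) * (y - 1) := mul_nonneg (by linarith) (by linarith)
          nlinarith [Real.pi_pos, mul_nonneg Real.pi_pos.le this]
      _ = _ := by ring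

theorem isBigO_top {F : ℝ → ℂ} {D : ℝ} (hD : ∀ y : ℝ, 1 ≤ y → ‖F y‖ ≤ D * Real.exp (-Real.pi * y))
    (s : ℝ) : F =O[atTop] (fun y : ℝ => y ^ (-s)) := by
  have h1 : F =O[atTop] (fun y : ℝ => Real.exp (-Real.pi * y)) := by
    refine IsBigO.of_bound D ?_
    filter_upwards [eventually_ge_atTop 1] with y hy
    simpa [abs_of_pos (Real.exp_pos _)] using hD y hy
  exact h1.trans (isLittleO_exp_neg_mul_rpow_atTop Real.pi_pos (-s)).isBigO

theorem isBigO_bot {F : ℝ → ℂ} {j : ℕ} {Q : ℝ} (hQ : 0 < Q)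
    (hfe : ∀ y : ℝ, 0 < y → F y = -((((Q * y) ^ (2 * j))⁻¹ : ℝ) : ℂ) * F ((Q ^ 2 * y)⁻¹))
    (htop : ∀ s : ℝ, F =O[atTop] (fun y : ℝ => y ^ (-s))) (r : ℝ) :
    F =O[𝓝[>] 0] (fun y : ℝ => y ^ (-r)) := by
  have hlim : Tendsto (fun y : ℝ => (Q ^ 2 * y)⁻¹) (𝓝[>] 0) atTop := by
    apply Tendsto.inv_tendsto_nhdsGT_zero
    rw [tendsto_nhdsWithin_iff]
    constructor
    · have : Tendsto (fun y : ℝ => Q ^ 2 * y) (𝓝 0) (𝓝 (Q ^ 2 * 0)) :=
        (continuous_const.mul continuous_id).tendsto 0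
      rw [mul_zero] at this
      exact this.mono_left nhdsWithin_le_nhds
    · filter_upwards [self_mem_nhdsWithin] with y hy
      have hy' : (0:ℝ) < y := hy
      show (0:ℝ) < Q ^ 2 * y
      positivity
  set s : ℝ := -r + 2 * j with hs
  have h1 : (fun y : ℝ => F ((Q ^ 2 * y)⁻¹)) =O[𝓝[>] 0] (fun y : ℝ => ((Q ^ 2 * y)⁻¹) ^ (-s)) :=
    (htop s).comp_tendsto hlim
  have h2 : (fun y : ℝ => ((Q ^ 2 * y)⁻¹) ^ (-s)) =O[𝓝[>] 0] (fun y : ℝ => y ^ s) := by
    refine IsBigO.of_bound ((Q ^ 2) ^ s) ?_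
    filter_upwards [self_mem_nhdsWithin] with y hy
    have hy' : (0:ℝ) < y := hy
    rw [Real.inv_rpow (by positivity), Real.rpow_neg (by positivity), inv_inv,
      Real.mul_rpow (by positivity) hy'.le, norm_mul, Real.norm_of_nonneg (by positivity)]
  have h3 : (fun y : ℝ => -((((Q * y) ^ (2 * j))⁻¹ : ℝ) : ℂ)) =O[𝓝[>] 0]
      (fun y : ℝ => y ^ (-(2 * j : ℝ))) := by
    refine IsBigO.of_bound ((Q ^ (2 * j))⁻¹) ?_
    filter_upwards [self_mem_nhdsWithin] with y hy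
    have hy' : (0:ℝ) < y := hy
    rw [norm_neg, Complex.norm_real, Real.norm_of_nonneg (by positivity),
      Real.norm_of_nonneg (by positivity), mul_pow, mul_inv, Real.rpow_neg hy'.le]
    have : y ^ (2 * (j : ℝ)) = y ^ (2 * j) := by
      rw [← Real.rpow_natCast]; congr 1; push_cast; ring
    rw [this]
  have h4 := h3.mul (h1.trans h2)
  refine (h4.congr' ?_ ?_)
  · filter_upwards [self_mem_nhdsWithin] with y hy
    exact (hfe y hy).symm
  · filter_upwards [self_mem_nhdsWithin] with y hy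
    have hy' : (0:ℝ) < y := hy
    rw [← Real.rpow_add hy']
    congr 1
    rw [hs]; ring

theorem mellin_fe {F : ℝ → ℂ} {j : ℕ} {Q : ℝ} (hQ : 0 < Q)
    (hfe : ∀ y : ℝ, 0 < y → F y = -((((Q * y) ^ (2 * j))⁻¹ : ℝ) : ℂ) * F ((Q ^ 2 * y)⁻¹)) :
    mellin F j = 0 := by
  have hQC : (Q : ℂ) ≠ 0 := by exact_mod_cast hQ.ne'
  have h1 : mellin F j = mellin (fun t : ℝ => (-((Q : ℂ) ^ (2 * j))⁻¹) •
      ((t : ℂ) ^ (-(2 * j : ℂ)) • F ((Q ^ 2 * t)⁻¹))) j := by
    unfold mellin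
    apply setIntegral_congr_fun measurableSet_Ioi
    intro t ht
    have ht' : (0:ℝ) < t := ht
    have htC : (t : ℂ) ≠ 0 := by exact_mod_cast ht'.ne'
    simp only [smul_eq_mul]
    rw [hfe t ht']
    have e1 : (t : ℂ) ^ (-(2 * j : ℂ)) = ((t : ℂ) ^ (2 * j))⁻¹ := by
      rw [Complex.cpow_neg]
      congr 1
      rw [← Complex.cpow_natCast]
      congr 1
      push_cast; ring
    rw [e1]
    push_cast
    rw [mul_pow, mul_inv]
    ring
  have h2 : mellin F j = -mellin F j := by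
    conv_lhs => rw [h1]
    rw [mellin_const_smul, mellin_cpow_smul,
      mellin_comp_mul_left (fun t => F t⁻¹) _ (by positivity : (0:ℝ) < Q ^ 2), mellin_comp_inv]
    have e1 : -((j : ℂ) + -(2 * (j : ℂ))) = (j : ℂ) := by ring
    rw [e1, smul_smul, Complex.cpow_natCast]
    push_cast
    rw [smul_eq_mul, ← pow_mul, neg_mul, inv_mul_cancel₀ (pow_ne_zero _ hQC), neg_one_mul]
  have h3 : (2:ℂ) * mellin F j = 0 := by linear_combination h2
  simpa using h3

theorem norm_integral {a : ℝ → ℂ} (w : ℂ) {n : ℕ} (hn : 0 < n) :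
    ∫ y in Ioi (0:ℝ), ‖(y : ℂ) ^ (w - 1) * a (n * y)‖ =
      ((n : ℝ) ^ (w.re))⁻¹ * ∫ y in Ioi (0:ℝ), ‖(y : ℂ) ^ (w - 1) * a y‖ := by
  have hn0 : (0:ℝ) < n := by exact_mod_cast hn
  have h := integral_comp_mul_left_Ioi (fun y : ℝ => ‖(y : ℂ) ^ (w - 1) * a y‖) 0 hn0
  rw [mul_zero] at h
  have h2 : ∫ y in Ioi (0:ℝ), ‖(((n : ℝ) * y : ℝ) : ℂ) ^ (w - 1) * a (n * y)‖ =
      (n : ℝ) ^ (w.re - 1) * ∫ y in Ioi (0:ℝ), ‖(y : ℂ) ^ (w - 1) * a (n * y)‖ := by
    rw [← integral_const_mul]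
    apply setIntegral_congr_fun measurableSet_Ioi
    intro y hy
    have hy' : (0:ℝ) < y := hy
    simp only
    rw [norm_mul, norm_mul, Complex.norm_cpow_eq_rpow_re_of_pos (by positivity),
      Complex.norm_cpow_eq_rpow_re_of_pos hy', Real.mul_rpow hn0.le hy'.le]
    simp only [Complex.sub_re, Complex.one_re]
    ring
  rw [h2, smul_eq_mul] at h
  rw [Real.rpow_sub_one hn0.ne'] at h
  have hpos : (0:ℝ) < (n : ℝ) ^ w.re := Real.rpow_pos_of_pos hn0 _
  field_simp at h ⊢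
  linarith

theorem twist_mellin {a : ℝ → ℂ} (ha : Fn a) {b : ℕ → ℂ} {j : ℕ} (hb0 : b 0 = 0)
    (hb : ∃ C : ℝ, ∀ n, ‖b n‖ ≤ C * (n : ℝ) ^ j) {F : ℝ → ℂ} (hFc : ContinuousOn F (Ioi 0))
    (hF : ∀ y : ℝ, 0 < y → HasSum (fun n : ℕ => b n * a (n * y)) (F y))
    {Q : ℝ} (hQ : 0 < Q)
    (hfe : ∀ y : ℝ, 0 < y → F y = -((((Q * y) ^ (2 * j))⁻¹ : ℝ) : ℂ) * F ((Q ^ 2 * y)⁻¹)) :
    ∃ M : ℂ → ℂ, Differentiable ℂ M ∧ M j = 0 ∧
      ∀ w : ℂ, (j : ℝ) + 1 < w.re → HasSum (fun n : ℕ => b n * (n : ℂ) ^ (-w) * Mel a w) (M w) := by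
  obtain ⟨D, _, hD⟩ := norm_decay ha hb0 hb hF
  have htop := isBigO_top hD
  have hbot := isBigO_bot hQ hfe htop
  refine ⟨mellin F, ?_, mellin_fe hQ hfe, ?_⟩
  · intro w
    exact mellin_differentiableAt_of_isBigO_rpow (a := w.re + 1) (b := w.re - 1)
      (hFc.locallyIntegrableOn measurableSet_Ioi) (htop _) (by linarith) (hbot _) (by linarith)
  · intro w hw
    have hw0 : 0 < w.re := by
      have : (0:ℝ) ≤ j := Nat.cast_nonneg j
      linarith
    obtain ⟨C', hC'⟩ := hb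
    have hint : ∀ n : ℕ, IntegrableOn (fun y : ℝ => (y : ℂ) ^ (w - 1) * (b n * a (n * y))) (Ioi 0) := by
      intro n
      rcases Nat.eq_zero_or_pos n with rfl | hn
      · simp [hb0]
      · have hn0 : (0:ℝ) < n := by exact_mod_cast hn
        have h1 := (MellinConvergent.comp_mul_left (f := a) (s := w) hn0).2 (ha.conv hw0)
        refine (Integrable.const_mul h1 (b n)).congr ?_
        refine Eventually.of_forall fun y => ?_
        simp only [smul_eq_mul]
        ring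
    have hterm : ∀ n : ℕ, ∫ y in Ioi (0:ℝ), (y : ℂ) ^ (w - 1) * (b n * a (n * y)) =
        b n * (n : ℂ) ^ (-w) * Mel a w := by
      intro n
      rcases Nat.eq_zero_or_pos n with rfl | hn
      · simp [hb0]
      · have hn0 : (0:ℝ) < n := by exact_mod_cast hn
        have h1 := mellin_comp_mul_left a w hn0
        rw [OMM.Mel_eq, mul_assoc]
        have h2 : (n : ℂ) ^ (-w) * mellin a w = mellin (fun t : ℝ => a (n * t)) w := by
          rw [h1, smul_eq_mul, Complex.ofReal_natCast]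
        rw [h2]
        unfold mellin
        rw [← integral_const_mul]
        apply setIntegral_congr_fun measurableSet_Ioi
        intro y _
        simp only [smul_eq_mul]
        ring
    have hsum : Summable fun n : ℕ => ∫ y in Ioi (0:ℝ), ‖(y : ℂ) ^ (w - 1) * (b n * a (n * y))‖ := by
      set I := ∫ y in Ioi (0:ℝ), ‖(y : ℂ) ^ (w - 1) * a y‖ with hI
      have hI0 : 0 ≤ I := integral_nonneg fun y => norm_nonneg _
      have hs : Summable fun n : ℕ => C' * I * (n : ℝ) ^ (-(w.re - j)) := by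
        apply Summable.mul_left
        rw [Real.summable_nat_rpow]
        linarith
      refine Summable.of_nonneg_of_le (fun n => integral_nonneg fun y => norm_nonneg _)
        (fun n => ?_) hs
      have e1 : ∫ y in Ioi (0:ℝ), ‖(y : ℂ) ^ (w - 1) * (b n * a (n * y))‖ =
          ‖b n‖ * ∫ y in Ioi (0:ℝ), ‖(y : ℂ) ^ (w - 1) * a (n * y)‖ := by
        rw [← integral_const_mul]
        apply setIntegral_congr_fun measurableSet_Ioi
        intro y _
        simp only [norm_mul]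
        ring
      rw [e1]
      rcases Nat.eq_zero_or_pos n with rfl | hn
      · rw [hb0, norm_zero, zero_mul]
        have hC'0 : 0 ≤ C' := by
          have := (norm_nonneg _).trans (hC' 1)
          simpa using this
        positivity
      · have hn0 : (0:ℝ) < n := by exact_mod_cast hn
        rw [norm_integral w hn, ← hI]
        have e2 : (n : ℝ) ^ (-(w.re - j)) = ((n : ℝ) ^ w.re)⁻¹ * (n : ℝ) ^ j := by
          rw [neg_sub, Real.rpow_sub hn0, Real.rpow_natCast]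
          field_simp
        rw [e2]
        have := mul_le_mul_of_nonneg_right (hC' n)
          (by positivity : 0 ≤ ((n : ℝ) ^ w.re)⁻¹ * I)
        calc ‖b n‖ * (((n : ℝ) ^ w.re)⁻¹ * I) ≤ C' * (n : ℝ) ^ j * (((n : ℝ) ^ w.re)⁻¹ * I) := this
          _ = _ := by ring
    have h := hasSum_integral_of_summable_integral_norm (μ := volume.restrict (Ioi (0:ℝ))) hint hsum
    have h2 : ∫ y in Ioi (0:ℝ), ∑' n : ℕ, (y : ℂ) ^ (w - 1) * (b n * a (n * y)) = mellin F w := by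
      unfold mellin
      apply setIntegral_congr_fun measurableSet_Ioi
      intro y hy
      have hy' : (0:ℝ) < y := hy
      simp only
      rw [((hF y hy').mul_left ((y : ℂ) ^ (w - 1))).tsum_eq, smul_eq_mul]
    rw [h2] at h
    simpa only [hterm] using h

end Pool.Agent.V8H85.OMB
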