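import Pool.Agent.V8H85.OM.B1

/-!
# Sums over residues with a primitive quadratic character
-/

set_option autoImplicit false
set_option linter.unusedSectionVars false
open MeasureTheory Set Filter Topology
open scoped MatrixGroups ZMod

namespace Pool.Agent.V8H85.OMB

open Pool.Agent.V8H85.OMM (Mel)

section chars

variable {q : ℕ} [NeZero q] {χ : DirichletCharacter ℂ q}

/-- the Gauss sum -/
noncomputable def tau (χ : DirichletCharacter ℂ q) : ℂ := gaussSum χ ZMod.stdAddChar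

theorem tau_ne_zero (hχ : χ.IsPrimitive) : tau χ ≠ 0 := by
  intro h
  have h1 : ZMod.dft (fun k : ZMod q => χ k) = 0 := by
    funext k
    have := hχ.fourierTransform_eq_inv_mul_gaussSum k
    unfold tau at h
    rw [h, mul_zero] at this
    exact this
  have h2 : (fun k : ZMod q => χ k) = 0 := by
    have := (ZMod.dft (N := q) (E := ℂ)).injective (h1.trans (map_zero _).symm)
    exact this
  have h3 := congrFun h2 1
  simp at h3

theorem gs (hχ : χ.IsPrimitive) (hχ2 : χ ^ 2 = 1) (n : ℤ) :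
    ∑ u : ZMod q, χ u * Complex.exp (2 * Real.pi * Complex.I * n * u.val / q) = χ n * tau χ := by
  have hinv : χ⁻¹ = χ := by
    rw [inv_eq_iff_mul_eq_one, ← sq]; exact hχ2
  have h := gaussSum_mulShift_of_isPrimitive (ZMod.stdAddChar (N := q)) hχ (n : ZMod q)
  rw [hinv] at h
  unfold tau
  rw [← h]
  unfold gaussSum
  refine Finset.sum_congr rfl fun u _ => ?_
  congr 1
  rw [AddChar.mulShift_apply]
  have h1 : (n : ZMod q) * u = ((n * (u.val : ℤ) : ℤ) : ZMod q) := by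
    push_cast
    rw [ZMod.natCast_zmod_val]
  rw [h1, ZMod.stdAddChar_coe]
  congr 1
  push_cast
  ring

theorem sum_units {M : Type*} [AddCommMonoid M] (g : ZMod q → M) (hg : ∀ a, ¬ IsUnit a → g a = 0) :
    ∑ a, g a = ∑ u : (ZMod q)ˣ, g u := by
  classical
  have h1 : ∑ u : (ZMod q)ˣ, g u = ∑ a ∈ Finset.univ.map ⟨Units.val, Units.val_injective⟩, g a := by
    rw [Finset.sum_map]
    rfl
  rw [h1]
  refine (Finset.sum_subset (Finset.subset_univ _) fun a _ ha => hg a fun hu => ha ?_).symm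
  rw [Finset.mem_map]
  exact ⟨hu.unit, Finset.mem_univ _, hu.unit_spec⟩

/-- the involution `u ↦ - u⁻¹` -/
def invol : (ZMod q)ˣ ≃ (ZMod q)ˣ where
  toFun u := -u⁻¹
  invFun u := -u⁻¹
  left_inv u := by simp
  right_inv u := by simp

theorem chi_invol (hχ2 : χ ^ 2 = 1) (u : (ZMod q)ˣ) : χ (invol u : (ZMod q)ˣ) = χ (-1) * χ u := by
  have h1 : ((invol u : (ZMod q)ˣ) : ZMod q) = -1 * ((u⁻¹ : (ZMod q)ˣ) : ZMod q) := by
    simp [invol]
  rw [h1, map_mul]
  congr 1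
  have h2 : χ u * χ ((u⁻¹ : (ZMod q)ˣ) : ZMod q) = 1 := by
    rw [← map_mul, Units.mul_inv, map_one]
  have h3 : χ u * χ u = 1 := by
    have := congrArg (fun ψ : DirichletCharacter ℂ q => ψ u) hχ2
    simp only [pow_two, MulChar.mul_apply] at this
    rw [this]
    exact MulChar.one_apply_coe u
  have h4 : χ u ≠ 0 := left_ne_zero_of_mul_eq_one h3
  exact mul_left_cancel₀ h4 (h2.trans h3.symm)

theorem exists_k (u : (ZMod q)ˣ) : ∃ k : ℤ,
    (((u : ZMod q).val : ℤ)) * (((invol u : (ZMod q)ˣ) : ZMod q).val : ℤ) + 1 = q * k := by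
  have h : ((((u : ZMod q).val : ℤ) * (((invol u : (ZMod q)ˣ) : ZMod q).val : ℤ) + 1 : ℤ) : ZMod q) = 0 := by
    push_cast
    rw [ZMod.natCast_zmod_val, ZMod.natCast_zmod_val]
    have : ((invol u : (ZMod q)ˣ) : ZMod q) = -((u⁻¹ : (ZMod q)ˣ) : ZMod q) := by simp [invol]
    rw [this, mul_neg, Units.mul_inv]
    ring
  rw [ZMod.intCast_zmod_eq_zero_iff_dvd] at h
  obtain ⟨k, hk⟩ := h
  exact ⟨k, hk⟩

/-- the point `u/q + i y` -/
noncomputable def pt (q : ℕ) (u : ℕ) (y : ℝ) : ℂ := ((u : ℝ) / (q : ℝ) : ℝ) + y * Complex.I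

theorem pt_im (q u : ℕ) (y : ℝ) : (pt q u y).im = y := by
  simp [pt]

/-- the twisted sum -/
noncomputable def tw (χ : DirichletCharacter ℂ q) (W : ℂ → ℂ) (y : ℝ) : ℂ :=
  ∑ u : ZMod q, χ u * W (pt q u.val y)

theorem tw_fe (hχ2 : χ ^ 2 = 1) {W : ℂ → ℂ} {y : ℝ} {ρ : ℂ}
    (hW : ∀ u : (ZMod q)ˣ, W (pt q (u : ZMod q).val y) =
      ρ * W (pt q ((invol u : (ZMod q)ˣ) : ZMod q).val (((q:ℝ) ^ 2 * y)⁻¹))) :
    tw χ W y = ρ * χ (-1) * tw χ W (((q:ℝ) ^ 2 * y)⁻¹) := by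
  unfold tw
  rw [sum_units _ fun a ha => by rw [MulChar.map_nonunit _ ha, zero_mul],
    sum_units _ fun a ha => by rw [MulChar.map_nonunit _ ha, zero_mul],
    ← Equiv.sum_comp (invol (q := q)), Finset.mul_sum]
  refine Finset.sum_congr rfl fun u _ => ?_
  have h3 : invol (invol u) = u := by simp [invol]
  rw [hW (invol u), chi_invol hχ2, h3]
  ring

end chars

section moeb

variable {q : ℕ} [NeZero q]

theorem moeb_pt (u : (ZMod q)ˣ) {y : ℝ} (hy : 0 < y) {k : ℤ}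
    (hk : (((u : ZMod q).val : ℤ)) * (((invol u : (ZMod q)ˣ) : ZMod q).val : ℤ) + 1 = q * k) :
    ((((invol u : (ZMod q)ˣ) : ZMod q).val : ℂ) * pt q (u : ZMod q).val y - k) /
      ((q : ℂ) * pt q (u : ZMod q).val y - ((u : ZMod q).val : ℂ)) =
    pt q ((invol u : (ZMod q)ˣ) : ZMod q).val (((q:ℝ) ^ 2 * y)⁻¹) ∧
    (q : ℂ) * pt q (u : ZMod q).val y - ((u : ZMod q).val : ℂ) = q * y * Complex.I := by
  have hq : (q : ℂ) ≠ 0 := by exact_mod_cast NeZero.ne q
  have hyC : (y : ℂ) ≠ 0 := by exact_mod_cast hy.ne'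
  have hI := Complex.I_ne_zero
  set a : ℂ := ((u : ZMod q).val : ℂ) with ha
  set b : ℂ := (((invol u : (ZMod q)ˣ) : ZMod q).val : ℂ) with hb
  have hkC : a * b + 1 = q * k := by
    rw [ha, hb]; exact_mod_cast hk
  have h2 : (q : ℂ) * pt q (u : ZMod q).val y - a = q * y * Complex.I := by
    unfold pt
    push_cast
    rw [← ha]
    field_simp
    ring
  refine ⟨?_, h2⟩
  rw [h2]
  unfold pt
  push_cast
  rw [← ha, ← hb]
  rw [div_eq_iff (mul_ne_zero (mul_ne_zero hq hyC) hI)]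
  field_simp
  have hI2 := Complex.I_sq
  linear_combination hkC - hI2

end moeb

end Pool.Agent.V8H85.OMB
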