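import Mathlib

set_option autoImplicit false
open MeasureTheory Set

namespace Pool.Agent.V8H85.OMM

/-- the Mellin transform -/
noncomputable def Mel (a : ℝ → ℂ) (w : ℂ) : ℂ := ∫ y in Ioi (0 : ℝ), a y * (y : ℂ) ^ (w - 1)

theorem hd_of_eq {f g : ℝ → ℝ} {f' g' y : ℝ} (h : HasDerivAt f f' y) (hfg : ∀ z, g z = f z)
    (h' : g' = f') : HasDerivAt g g' y := by
  have : g = f := funext hfg
  rw [this, h']; exact h

theorem mono_of_hasDeriv {f f' : ℝ → ℝ} {Y : ℝ} (h : ∀ y, Y ≤ y → HasDerivAt f (f' y) y)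
    (h0 : ∀ y, Y ≤ y → 0 ≤ f' y) : MonotoneOn f (Ici Y) := by
  apply monotoneOn_of_deriv_nonneg (convex_Ici Y)
  · intro y hy
    exact (h y hy).continuousAt.continuousWithinAt
  · intro y hy
    rw [interior_Ici] at hy
    exact (h y (le_of_lt hy)).differentiableAt.differentiableWithinAt
  · intro y hy
    rw [interior_Ici] at hy
    rw [(h y (le_of_lt hy)).deriv]
    exact h0 y (le_of_lt hy)

/-- a bounded nonnegative function with `u'' ≥ 4π² u` decays. -/
theorem decay_real {u u1 u2 : ℝ → ℝ} {Y A : ℝ}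
    (h1 : ∀ y, Y ≤ y → HasDerivAt u (u1 y) y) (h2 : ∀ y, Y ≤ y → HasDerivAt u1 (u2 y) y)
    (h3 : ∀ y, Y ≤ y → 4 * Real.pi ^ 2 * u y ≤ u2 y)
    (hA : ∀ y, Y ≤ y → u y ≤ A) :
    ∀ y, Y ≤ y → u y ≤ u Y * Real.exp (2 * Real.pi * Y) * Real.exp (-(2 * Real.pi * y)) := by
  have hpi := Real.pi_pos
  -- `V`
  set V : ℝ → ℝ := fun y => (u1 y + 2 * Real.pi * u y) * Real.exp (-(2 * Real.pi * y)) with hV
  have hexp : ∀ (c y : ℝ), HasDerivAt (fun y => Real.exp (c * y)) (Real.exp (c * y) * c) y := by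
    intro c y
    have := (((hasDerivAt_id y).const_mul c).exp)
    simpa using this
  have hVm : MonotoneOn V (Ici Y) := by
    apply mono_of_hasDeriv (f' := fun y => (u2 y - 4 * Real.pi ^ 2 * u y) * Real.exp (-(2 * Real.pi * y)))
    · intro y hy
      have e1 := ((h2 y hy).add ((h1 y hy).const_mul (2 * Real.pi))).mul (hexp (-(2 * Real.pi)) y)
      refine hd_of_eq e1 (fun z => ?_) ?_
      · simp only [hV, Pi.mul_apply, Pi.add_apply]; ring_nf
      · simp only [Pi.add_apply]; ring_nf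
    · intro y hy
      exact mul_nonneg (by linarith [h3 y hy]) (Real.exp_pos _).le
  have hVle : ∀ y, Y ≤ y → V y ≤ 0 := by
    intro y0 hy0
    by_contra hc
    push Not at hc
    set c := V y0 with hcdef
    have hG : MonotoneOn (fun y => u y * Real.exp (2 * Real.pi * y) -
        c / (4 * Real.pi) * Real.exp (4 * Real.pi * y)) (Ici y0) := by
      apply mono_of_hasDeriv (f' := fun y => Real.exp (4 * Real.pi * y) * (V y - c))
      · intro y hy
        have hYy : Y ≤ y := hy0.trans hy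
        have e1 := ((h1 y hYy).mul (hexp (2 * Real.pi) y)).sub
          ((hexp (4 * Real.pi) y).const_mul (c / (4 * Real.pi)))
        refine hd_of_eq e1 (fun z => rfl) ?_
        simp only [hV]
        have e2 : Real.exp (4 * Real.pi * y) * Real.exp (-(2 * Real.pi * y)) = Real.exp (2 * Real.pi * y) := by
          rw [← Real.exp_add]; congr 1; ring
        have e3 : c / (4 * Real.pi) * (Real.exp (4 * Real.pi * y) * (4 * Real.pi)) = c * Real.exp (4 * Real.pi * y) := by
          field_simp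
        rw [e3]
        have : Real.exp (4 * Real.pi * y) * ((u1 y + 2 * Real.pi * u y) * Real.exp (-(2 * Real.pi * y)) - c)
          = (u1 y + 2 * Real.pi * u y) * (Real.exp (4 * Real.pi * y) * Real.exp (-(2 * Real.pi * y)))
            - c * Real.exp (4 * Real.pi * y) := by ring
        rw [this, e2]
        ring
      · intro y hy
        have hYy : Y ≤ y := hy0.trans hy
        have := hVm (show y0 ∈ Ici Y from hy0) (show y ∈ Ici Y from hYy) hy
        exact mul_nonneg (Real.exp_pos _).le (by simpa [hcdef] using this)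
    -- contradiction with the bound
    set K := u y0 * Real.exp (2 * Real.pi * y0) - c / (4 * Real.pi) * Real.exp (4 * Real.pi * y0) with hK
    have hkey : ∀ y, y0 ≤ y → 0 ≤ y → c / (4 * Real.pi) * (2 * Real.pi * y) ≤ |A| + |K| := by
      intro y hy hy' 
      have h5 := hG (show y0 ∈ Ici y0 from le_refl y0) (show y ∈ Ici y0 from hy) hy
      simp only at h5
      rw [← hK] at h5
      have h6 := hA y (hy0.trans hy)
      have h7 : c / (4 * Real.pi) * Real.exp (2 * Real.pi * y) ≤ |A| + |K| := by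
        have e4 : Real.exp (4 * Real.pi * y) = Real.exp (2 * Real.pi * y) * Real.exp (2 * Real.pi * y) := by
          rw [← Real.exp_add]; congr 1; ring
        rw [e4] at h5
        have h8 : 1 ≤ Real.exp (2 * Real.pi * y) := by
          apply Real.one_le_exp; positivity
        have h9 : c / (4 * Real.pi) * Real.exp (2 * Real.pi * y) * Real.exp (2 * Real.pi * y)
            ≤ (|A| + |K|) * Real.exp (2 * Real.pi * y) := by
          have : u y * Real.exp (2 * Real.pi * y) ≤ |A| * Real.exp (2 * Real.pi * y) :=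
            mul_le_mul_of_nonneg_right (h6.trans (le_abs_self A)) (Real.exp_pos _).le
          have h10 : -K ≤ |K| * Real.exp (2 * Real.pi * y) :=
            (neg_le_abs K).trans (le_mul_of_one_le_right (abs_nonneg K) h8)
          nlinarith [this, h10, h5]
        exact le_of_mul_le_mul_right h9 (Real.exp_pos _)
      refine le_trans ?_ h7
      apply mul_le_mul_of_nonneg_left
      · have := Real.add_one_le_exp (2 * Real.pi * y); linarith
      · positivity
    have hcpos : 0 < c := hc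
    set D := |A| + |K| with hD
    have hDn : 0 ≤ D := by positivity
    have := hkey (max y0 (2 * (D + 1) / c)) (le_max_left _ _)
      (le_trans (by positivity) (le_max_right _ _))
    have h11 : c / (4 * Real.pi) * (2 * Real.pi * (2 * (D + 1) / c)) ≤
      c / (4 * Real.pi) * (2 * Real.pi * (max y0 (2 * (D + 1) / c))) := by
      apply mul_le_mul_of_nonneg_left _ (by positivity)
      apply mul_le_mul_of_nonneg_left (le_max_right _ _) (by positivity)
    have h12 : c / (4 * Real.pi) * (2 * Real.pi * (2 * (D + 1) / c)) = D + 1 := by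
      field_simp
      ring
    linarith
  -- `u exp(2πy)` is antitone
  have hanti : MonotoneOn (fun y => -(u y * Real.exp (2 * Real.pi * y))) (Ici Y) := by
    apply mono_of_hasDeriv (f' := fun y => -(V y * Real.exp (4 * Real.pi * y)))
    · intro y hy
      have e1 := ((h1 y hy).mul (hexp (2 * Real.pi) y)).neg
      refine hd_of_eq e1 (fun z => rfl) ?_
      simp only [hV]
      have e2 : Real.exp (-(2 * Real.pi * y)) * Real.exp (4 * Real.pi * y) = Real.exp (2 * Real.pi * y) := by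
        rw [← Real.exp_add]; congr 1; ring
      rw [mul_assoc, e2]; ring
    · intro y hy
      have := mul_nonneg_of_nonpos_of_nonpos (hVle y hy) (neg_nonpos.2 (Real.exp_pos (4 * Real.pi * y)).le)
      linarith
  intro y hy
  have h5 := hanti (show Y ∈ Ici Y from le_refl Y) (show y ∈ Ici Y from hy) hy
  simp only at h5
  have h6 : u y * Real.exp (2 * Real.pi * y) ≤ u Y * Real.exp (2 * Real.pi * Y) := by linarith
  have h7 : u y = (u y * Real.exp (2 * Real.pi * y)) * Real.exp (-(2 * Real.pi * y)) := by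
    rw [mul_assoc, ← Real.exp_add]; simp
  rw [h7]
  exact mul_le_mul_of_nonneg_right h6 (Real.exp_pos _).le

theorem decay_aux {a a1 : ℝ → ℂ} {lam : ℂ} {B : ℝ}
    (h1 : ∀ y : ℝ, 0 < y → HasDerivAt a (a1 y) y)
    (h2 : ∀ y : ℝ, 0 < y → HasDerivAt a1 ((4 * (Real.pi : ℂ) ^ 2 - lam / (y : ℂ) ^ 2) * a y) y)
    (hB : ∀ y : ℝ, 0 < y → ‖a y‖ ≤ B) :
    ∃ C : ℝ, 0 ≤ C ∧ ∀ y : ℝ, 1 ≤ y → ‖a y‖ ≤ C * Real.exp (-Real.pi * y) := by
  have hpi := Real.pi_pos
  have hB0 : 0 ≤ B := (norm_nonneg _).trans (hB 1 one_pos)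
  set Y : ℝ := 1 + ‖lam‖ with hY
  have hY1 : 1 ≤ Y := by simp [hY]
  have hpos : ∀ y, Y ≤ y → 0 < y := fun y hy => by linarith
  -- real and imaginary parts
  have hre1 : ∀ y, 0 < y → HasDerivAt (fun y => (a y).re) (a1 y).re y := fun y hy =>
    Complex.reCLM.hasFDerivAt.comp_hasDerivAt y (h1 y hy)
  have him1 : ∀ y, 0 < y → HasDerivAt (fun y => (a y).im) (a1 y).im y := fun y hy =>
    Complex.imCLM.hasFDerivAt.comp_hasDerivAt y (h1 y hy)
  have hre2 : ∀ y, 0 < y → HasDerivAt (fun y => (a1 y).re)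
      (((4 * (Real.pi : ℂ) ^ 2 - lam / (y : ℂ) ^ 2) * a y)).re y := fun y hy =>
    Complex.reCLM.hasFDerivAt.comp_hasDerivAt y (h2 y hy)
  have him2 : ∀ y, 0 < y → HasDerivAt (fun y => (a1 y).im)
      (((4 * (Real.pi : ℂ) ^ 2 - lam / (y : ℂ) ^ 2) * a y)).im y := fun y hy =>
    Complex.imCLM.hasFDerivAt.comp_hasDerivAt y (h2 y hy)
  have hmain := decay_real (Y := Y) (A := B ^ 2)
    (u := fun y => (a y).re ^ 2 + (a y).im ^ 2)
    (u1 := fun y => 2 * ((a y).re * (a1 y).re + (a y).im * (a1 y).im))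
    (u2 := fun y => 2 * ((a1 y).re ^ 2 + (a1 y).im ^ 2) +
      2 * (4 * Real.pi ^ 2 - lam.re / y ^ 2) * ((a y).re ^ 2 + (a y).im ^ 2))
    (by
      intro y hy
      have e := ((hre1 y (hpos y hy)).pow 2).add ((him1 y (hpos y hy)).pow 2)
      refine hd_of_eq e (fun z => rfl) ?_
      simp; ring)
    (by
      intro y hy
      have hy0 := hpos y hy
      have e := (((hre1 y hy0).mul (hre2 y hy0)).add ((him1 y hy0).mul (him2 y hy0))).const_mul 2
      refine hd_of_eq e (fun z => rfl) ?_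
      have hq : (4 * (Real.pi : ℂ) ^ 2 - lam / (y : ℂ) ^ 2) =
        (((4 * Real.pi ^ 2 : ℝ) : ℂ) - lam * ((1 / y ^ 2 : ℝ) : ℂ)) := by
        push_cast; ring
      rw [hq]
      simp only [Complex.mul_re, Complex.mul_im, Complex.sub_re, Complex.sub_im, Complex.ofReal_re,
        Complex.ofReal_im]
      ring)
    (by
      intro y hy
      have hy0 := hpos y hy
      have h3 : lam.re / y ^ 2 ≤ 1 := by
        rw [div_le_one (by positivity)]
        have : lam.re ≤ ‖lam‖ := Complex.re_le_norm lam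
        nlinarith
      have h4 : (1:ℝ) ≤ 2 * Real.pi ^ 2 := by nlinarith [Real.pi_gt_three]
      have h5 : 0 ≤ (a y).re ^ 2 + (a y).im ^ 2 := by positivity
      have h6 : 0 ≤ 2 * ((a1 y).re ^ 2 + (a1 y).im ^ 2) := by positivity
      nlinarith [mul_nonneg h5 (by linarith : 0 ≤ 2 * Real.pi ^ 2 - lam.re / y ^ 2)])
    (by
      intro y hy
      have h3 := hB y (hpos y hy)
      have h4 : (a y).re ^ 2 + (a y).im ^ 2 = ‖a y‖ ^ 2 := by
        rw [← Complex.normSq_eq_norm_sq, Complex.normSq_apply]; ring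
      rw [h4]
      exact pow_le_pow_left₀ (norm_nonneg _) h3 2)
  set K : ℝ := ((a Y).re ^ 2 + (a Y).im ^ 2) * Real.exp (2 * Real.pi * Y) with hK
  have hK0 : 0 ≤ K := by positivity
  refine ⟨Real.sqrt K + B * Real.exp (Real.pi * Y), by positivity, ?_⟩
  intro y hy
  by_cases hyY : Y ≤ y
  · have h3 := hmain y hyY
    have h4 : (a y).re ^ 2 + (a y).im ^ 2 = ‖a y‖ ^ 2 := by
      rw [← Complex.normSq_eq_norm_sq, Complex.normSq_apply]; ring
    rw [h4] at h3
    have h5 : K * Real.exp (-(2 * Real.pi * y)) = (Real.sqrt K * Real.exp (-Real.pi * y)) ^ 2 := by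
      rw [mul_pow, Real.sq_sqrt hK0, ← Real.exp_nat_mul]
      congr 2; push_cast; ring
    rw [h5] at h3
    have h6 : ‖a y‖ ≤ Real.sqrt K * Real.exp (-Real.pi * y) :=
      le_of_sq_le_sq h3 (by positivity)
    refine h6.trans ?_
    apply mul_le_mul_of_nonneg_right _ (Real.exp_pos _).le
    have : 0 ≤ B * Real.exp (Real.pi * Y) := by positivity
    linarith
  · push Not at hyY
    have h3 := hB y (by linarith)
    have h4 : 1 ≤ Real.exp (Real.pi * Y) * Real.exp (-Real.pi * y) := by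
      rw [← Real.exp_add]
      apply Real.one_le_exp
      nlinarith
    calc ‖a y‖ ≤ B := h3
      _ ≤ B * (Real.exp (Real.pi * Y) * Real.exp (-Real.pi * y)) := le_mul_of_one_le_right hB0 h4
      _ ≤ _ := by
        rw [add_mul]
        have : 0 ≤ Real.sqrt K * Real.exp (-Real.pi * y) := by positivity
        linarith [mul_assoc B (Real.exp (Real.pi * Y)) (Real.exp (-Real.pi * y))]

theorem decay {a a1 : ℝ → ℂ} {lam : ℂ} {B : ℝ}
    (h1 : ∀ y : ℝ, 0 < y → HasDerivAt a (a1 y) y)
    (h2 : ∀ y : ℝ, 0 < y → HasDerivAt a1 ((4 * (Real.pi : ℂ) ^ 2 - lam / (y : ℂ) ^ 2) * a y) y)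
    (hB : ∀ y : ℝ, 0 < y → ‖a y‖ ≤ B) :
    ∃ C : ℝ, ∀ y : ℝ, 1 ≤ y → ‖a y‖ ≤ C * Real.exp (-Real.pi * y) := by
  obtain ⟨C, _, hC⟩ := decay_aux h1 h2 hB
  exact ⟨C, hC⟩

end Pool.Agent.V8H85.OMM
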