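import Pool.Agent.V8H85.OM.Decay

set_option autoImplicit false
open MeasureTheory Set Filter Topology Asymptotics

namespace Pool.Agent.V8H85.OMM

theorem deriv_bound {f f1 f2 : ℝ → ℂ} {y h A D : ℝ} (hh : 0 < h) 
    (h1 : ∀ x ∈ Icc y (y + h), HasDerivAt f (f1 x) x)
    (h2 : ∀ x ∈ Icc y (y + h), HasDerivAt f1 (f2 x) x)
    (hA : ∀ x ∈ Icc y (y + h), ‖f x‖ ≤ A) (hD : ∀ x ∈ Icc y (y + h), ‖f2 x‖ ≤ D) :
    h * ‖f1 y‖ ≤ 2 * A + D * h ^ 2 := by
  have hD0 : 0 ≤ D := (norm_nonneg _).trans (hD y ⟨le_refl y, by linarith⟩)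
  have e1 : ∀ x ∈ Icc y (y + h), ‖f1 x - f1 y‖ ≤ D * h := by
    intro x hx
    refine (norm_image_sub_le_of_norm_deriv_le_segment' (f := f1) (f' := f2)
      (fun z hz => (h2 z hz).hasDerivWithinAt) (fun z hz => hD z ⟨hz.1, hz.2.le⟩) x hx).trans ?_
    exact mul_le_mul_of_nonneg_left (by linarith [hx.2]) hD0
  have e2 := norm_image_sub_le_of_norm_deriv_le_segment' (f := fun x : ℝ => f x - (x : ℂ) * f1 y)
    (f' := fun x => f1 x - f1 y) (a := y) (b := y + h) (C := D * h)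
    (fun z hz => by
      have e3 : HasDerivAt (fun x : ℝ => (x : ℂ) * f1 y) (1 * f1 y) z :=
        (Complex.ofRealCLM.hasDerivAt (x := z)).mul_const (f1 y)
      have := (h1 z hz).sub e3
      rw [one_mul] at this
      exact this.hasDerivWithinAt)
    (fun z hz => e1 z ⟨hz.1, hz.2.le⟩) (y + h) ⟨by linarith, le_refl _⟩
  have e4 : (h : ℂ) * f1 y = f (y + h) - f y - ((f (y + h) - ((y + h : ℝ) : ℂ) * f1 y) - (f y - (y : ℂ) * f1 y)) := by
    push_cast; ring
  have e5 : h * ‖f1 y‖ = ‖(h : ℂ) * f1 y‖ := by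
    rw [norm_mul, Complex.norm_real, Real.norm_of_nonneg hh.le]
  rw [e5, e4]
  have hAy := hA y ⟨le_refl y, by linarith⟩
  have hAyh := hA (y + h) ⟨by linarith, le_refl _⟩
  calc _ ≤ ‖f (y + h) - f y‖ + ‖(f (y + h) - ((y + h : ℝ) : ℂ) * f1 y) - (f y - (y : ℂ) * f1 y)‖ := norm_sub_le _ _
    _ ≤ (A + A) + D * h * (y + h - y) := by
      refine add_le_add ((norm_sub_le _ _).trans (add_le_add hAyh hAy)) e2
    _ = _ := by ring

structure Sol (a a1 : ℝ → ℂ) (lam : ℂ) (B C : ℝ) : Prop where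
  h1 : ∀ y : ℝ, 0 < y → HasDerivAt a (a1 y) y
  h2 : ∀ y : ℝ, 0 < y → HasDerivAt a1 ((4 * (Real.pi : ℂ) ^ 2 - lam / (y : ℂ) ^ 2) * a y) y
  hB : ∀ y : ℝ, 0 < y → ‖a y‖ ≤ B
  hC0 : 0 ≤ C
  hC : ∀ y : ℝ, 1 ≤ y → ‖a y‖ ≤ C * Real.exp (-Real.pi * y)

variable {a a1 : ℝ → ℂ} {lam : ℂ} {B C : ℝ}

theorem norm_coef_le (lam : ℂ) {y : ℝ} (hy : 0 < y) :
    ‖(4 * (Real.pi : ℂ) ^ 2 - lam / (y : ℂ) ^ 2)‖ ≤ 4 * Real.pi ^ 2 + ‖lam‖ / y ^ 2 := by
  refine (norm_sub_le _ _).trans ?_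
  simp [Complex.norm_real, abs_of_pos hy, abs_of_pos Real.pi_pos]

theorem Sol.a1_inf (S : Sol a a1 lam B C) : ∃ D : ℝ, 0 ≤ D ∧ ∀ y : ℝ, 1 ≤ y → ‖a1 y‖ ≤ D * Real.exp (-Real.pi * y) := by
  refine ⟨2 * C + (4 * Real.pi ^ 2 + ‖lam‖) * C, by have := S.hC0; positivity, fun y hy => ?_⟩
  have hexp : ∀ x ∈ Icc y (y + 1), Real.exp (-Real.pi * x) ≤ Real.exp (-Real.pi * y) := by
    intro x hx
    apply Real.exp_le_exp.2
    nlinarith [hx.1, Real.pi_pos]
  have e := deriv_bound (f := a) (f1 := a1) (f2 := fun y => (4 * (Real.pi : ℂ) ^ 2 - lam / (y : ℂ) ^ 2) * a y)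
    (y := y) (h := 1) (A := C * Real.exp (-Real.pi * y))
    (D := (4 * Real.pi ^ 2 + ‖lam‖) * (C * Real.exp (-Real.pi * y))) one_pos
    (fun x hx => S.h1 x (by linarith [hx.1])) (fun x hx => S.h2 x (by linarith [hx.1]))
    (fun x hx => (S.hC x (by linarith [hx.1])).trans (mul_le_mul_of_nonneg_left (hexp x hx) S.hC0))
    (fun x hx => by
      have hx0 : 0 < x := by linarith [hx.1]
      have hx1 : 1 ≤ x := by linarith [hx.1]
      rw [norm_mul]
      apply mul_le_mul _ _ (norm_nonneg _) (by positivity)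
      · refine (norm_coef_le lam hx0).trans ?_
        have : ‖lam‖ / x ^ 2 ≤ ‖lam‖ := div_le_self (norm_nonneg _) (by nlinarith)
        linarith
      · exact (S.hC x (by linarith [hx.1])).trans (mul_le_mul_of_nonneg_left (hexp x hx) S.hC0))
  nlinarith [e]

theorem Sol.a1_zero (S : Sol a a1 lam B C) : ∃ D : ℝ, 0 ≤ D ∧ ∀ y : ℝ, 0 < y → y ≤ 1 → ‖a1 y‖ ≤ D / y := by
  have hB0 : 0 ≤ B := (norm_nonneg _).trans (S.hB 1 one_pos)
  refine ⟨2 * B + (4 * Real.pi ^ 2 + ‖lam‖) * B, by positivity, fun y hy hy1 => ?_⟩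
  have e := deriv_bound (f := a) (f1 := a1) (f2 := fun y => (4 * (Real.pi : ℂ) ^ 2 - lam / (y : ℂ) ^ 2) * a y)
    (y := y) (h := y) (A := B)
    (D := (4 * Real.pi ^ 2 + ‖lam‖ / y ^ 2) * B) hy
    (fun x hx => S.h1 x (by linarith [hx.1])) (fun x hx => S.h2 x (by linarith [hx.1]))
    (fun x hx => S.hB x (by linarith [hx.1]))
    (fun x hx => by
      have hx0 : 0 < x := by linarith [hx.1]
      rw [norm_mul]
      apply mul_le_mul _ (S.hB x hx0) (norm_nonneg _) (by positivity)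
      refine (norm_coef_le lam hx0).trans ?_
      have : ‖lam‖ / x ^ 2 ≤ ‖lam‖ / y ^ 2 :=
        div_le_div_of_nonneg_left (norm_nonneg _) (by positivity) (pow_le_pow_left₀ hy.le hx.1 2)
      linarith)
  rw [le_div_iff₀ hy, mul_comm]
  refine e.trans ?_
  have e2 : (4 * Real.pi ^ 2 + ‖lam‖ / y ^ 2) * B * y ^ 2 = (4 * Real.pi ^ 2 * y ^ 2 + ‖lam‖) * B := by
    field_simp
  rw [e2]
  have : 4 * Real.pi ^ 2 * y ^ 2 ≤ 4 * Real.pi ^ 2 := mul_le_of_le_one_right (by positivity) (by nlinarith)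
  nlinarith

theorem Sol.locInt (S : Sol a a1 lam B C) : LocallyIntegrableOn a (Ioi 0) := by
  apply ContinuousOn.locallyIntegrableOn _ measurableSet_Ioi
  intro y hy
  exact (S.h1 y hy).continuousAt.continuousWithinAt

theorem Sol.isBigO_bot (S : Sol a a1 lam B C) : a =O[𝓝[>] 0] (fun y : ℝ => y ^ (-(0 : ℝ))) := by
  apply IsBigO.of_bound B
  filter_upwards [self_mem_nhdsWithin] with y hy
  have hy' : (0:ℝ) < y := hy
  simpa using S.hB y hy'

theorem Sol.isBigO_top (S : Sol a a1 lam B C) : a =O[atTop] (fun y : ℝ => Real.exp (-Real.pi * y)) := by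
  apply IsBigO.of_bound C
  filter_upwards [eventually_ge_atTop 1] with y hy
  simpa [abs_of_pos (Real.exp_pos _)] using S.hC y hy

theorem Mel_eq (w : ℂ) : Mel a w = mellin a w := by
  unfold Mel mellin
  apply setIntegral_congr_fun measurableSet_Ioi
  intro y _
  simp [mul_comm]

theorem Sol.conv (S : Sol a a1 lam B C) {w : ℂ} (hw : 0 < w.re) :
    IntegrableOn (fun y : ℝ => a y * (y : ℂ) ^ (w - 1)) (Ioi 0) := by
  have := mellinConvergent_of_isBigO_rpow_exp Real.pi_pos S.locInt S.isBigO_top S.isBigO_bot hw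
  refine this.congr_fun (fun y _ => ?_) measurableSet_Ioi
  simp [mul_comm]

theorem Sol.diff (S : Sol a a1 lam B C) {w : ℂ} (hw : 0 < w.re) : DifferentiableAt ℂ (Mel a) w := by
  have : Mel a = mellin a := funext Mel_eq
  rw [this]
  exact mellin_differentiableAt_of_isBigO_rpow_exp Real.pi_pos S.locInt S.isBigO_top S.isBigO_bot hw

theorem norm_cpow_of_pos {y : ℝ} (hy : 0 < y) (w : ℂ) : ‖(y : ℂ) ^ w‖ = y ^ w.re :=
  Complex.norm_cpow_eq_rpow_re_of_pos hy w

theorem tendsto_exp_mul_rpow (s : ℝ) (D : ℝ) :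
    Tendsto (fun y : ℝ => D * Real.exp (-Real.pi * y) * y ^ s) atTop (𝓝 0) := by
  have h := (isLittleO_exp_neg_mul_rpow_atTop Real.pi_pos (-s))
  have h2 := h.tendsto_div_nhds_zero
  have h3 := h2.const_mul D
  rw [mul_zero] at h3
  refine h3.congr' ?_
  filter_upwards [eventually_gt_atTop 0] with y hy
  rw [Real.rpow_neg hy.le]
  field_simp

theorem Sol.functional (S : Sol a a1 lam B C) {w : ℂ} (hw : 0 < w.re) :
    (w ^ 2 + w + lam) * Mel a w = 4 * (Real.pi : ℂ) ^ 2 * Mel a (w + 2) := by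
  have hw0 : w ≠ 0 := by rintro rfl; simp at hw
  have hw1 : w + 1 ≠ 0 := by
    intro h
    have := congrArg Complex.re h
    simp at this; linarith
  obtain ⟨D1, hD10, hD1⟩ := S.a1_inf
  obtain ⟨D0, hD00, hD0⟩ := S.a1_zero
  have hB0 : 0 ≤ B := (norm_nonneg _).trans (S.hB 1 one_pos)
  set F : ℝ → ℂ := fun y => a1 y * (y : ℂ) ^ (w + 1) - (w + 1) * (a y * (y : ℂ) ^ w) with hF
  set F' : ℝ → ℂ := fun y => 4 * (Real.pi : ℂ) ^ 2 * (a y * (y : ℂ) ^ ((w + 2) - 1)) -
    (w ^ 2 + w + lam) * (a y * (y : ℂ) ^ (w - 1)) with hF'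
  have hder : ∀ y ∈ Ioi (0 : ℝ), HasDerivAt F (F' y) y := by
    intro y hy
    have hy' : (0 : ℝ) < y := hy
    have hyC : (y : ℂ) ≠ 0 := by exact_mod_cast hy'.ne'
    have c1 : HasDerivAt (fun y : ℝ => (y : ℂ) ^ (w + 1)) ((w + 1) * (y : ℂ) ^ (w + 1 - 1)) y :=
      hasDerivAt_ofReal_cpow_const hy'.ne' hw1
    have c2 : HasDerivAt (fun y : ℝ => (y : ℂ) ^ w) (w * (y : ℂ) ^ (w - 1)) y :=
      hasDerivAt_ofReal_cpow_const hy'.ne' hw0
    have e := ((S.h2 y hy').mul c1).sub (((S.h1 y hy').mul c2).const_mul (w + 1))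
    refine e.congr_deriv ?_
    simp only [hF']
    have p1 : (y : ℂ) ^ (w + 1) = (y : ℂ) ^ (w - 1) * (y : ℂ) ^ 2 := by
      rw [← Complex.cpow_natCast, ← Complex.cpow_add _ _ hyC]; congr 1; push_cast; ring
    have p2 : (y : ℂ) ^ (w + 1 - 1) = (y : ℂ) ^ (w - 1) * y := by
      have := Complex.cpow_add (w - 1) 1 hyC
      rw [Complex.cpow_one] at this
      rw [← this]
      congr 1; ring
    have p3 : (y : ℂ) ^ w = (y : ℂ) ^ (w - 1) * y := by
      rw [← p2]; congr 1; ring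
    have p4 : (y : ℂ) ^ (w + 2 - 1) = (y : ℂ) ^ (w - 1) * (y : ℂ) ^ 2 := by
      rw [← p1]; congr 1; ring
    rw [p1, p2, p3, p4]
    field_simp
    ring
  have hint : IntegrableOn F' (Ioi 0) := by
    apply Integrable.sub
    · exact (S.conv (w := w + 2) (by simp; linarith)).const_mul _
    · exact (S.conv hw).const_mul _
  have hF0 : F 0 = 0 := by
    simp [hF, Complex.zero_cpow hw0, Complex.zero_cpow hw1]
  have hcont : ContinuousWithinAt F (Ici 0) 0 := by
    rw [ContinuousWithinAt, hF0]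
    have hlim : Tendsto (fun y : ℝ => (D0 + ‖w + 1‖ * B) * y ^ w.re) (𝓝[≥] 0) (𝓝 0) := by
      have h1 : ContinuousAt (fun y : ℝ => (D0 + ‖w + 1‖ * B) * y ^ w.re) 0 :=
        continuousAt_const.mul (Real.continuousAt_rpow_const 0 w.re (Or.inr hw.le))
      have h2 := h1.tendsto
      simp only [Real.zero_rpow hw.ne', mul_zero] at h2
      exact h2.mono_left nhdsWithin_le_nhds
    apply squeeze_zero_norm' _ hlim
    filter_upwards [self_mem_nhdsWithin, nhdsWithin_le_nhds (Iio_mem_nhds (one_pos : (0:ℝ) < 1))] with y hy hy1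
    rcases (show (0:ℝ) ≤ y from hy).eq_or_lt with h0 | h0
    · rw [← h0, hF0]; simp [Real.zero_rpow hw.ne']
    · have hy1' : y < 1 := hy1
      refine (norm_sub_le _ _).trans ?_
      rw [norm_mul, norm_mul, norm_mul, norm_cpow_of_pos h0, norm_cpow_of_pos h0, add_mul]
      apply add_le_add
      · have : y ^ (w + 1).re = y * y ^ w.re := by
          simp only [Complex.add_re, Complex.one_re]
          rw [Real.rpow_add_one h0.ne', mul_comm]
        rw [this, ← mul_assoc]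
        apply mul_le_mul_of_nonneg_right _ (Real.rpow_nonneg h0.le _)
        have := hD0 y h0 hy1'.le
        rwa [le_div_iff₀ h0] at this
      · rw [mul_assoc]
        apply mul_le_mul_of_nonneg_left _ (norm_nonneg _)
        exact mul_le_mul_of_nonneg_right (S.hB y h0) (Real.rpow_nonneg h0.le _)
  have htop : Tendsto F atTop (𝓝 0) := by
    have hlim : Tendsto (fun y : ℝ => D1 * Real.exp (-Real.pi * y) * y ^ (w.re + 1) +
        (‖w + 1‖ * C) * Real.exp (-Real.pi * y) * y ^ w.re) atTop (𝓝 0) := by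
      simpa using (tendsto_exp_mul_rpow (w.re + 1) D1).add (tendsto_exp_mul_rpow w.re (‖w + 1‖ * C))
    apply squeeze_zero_norm' _ hlim
    filter_upwards [eventually_ge_atTop 1] with y hy
    have h0 : 0 < y := by linarith
    refine (norm_sub_le _ _).trans ?_
    rw [norm_mul, norm_mul, norm_mul, norm_cpow_of_pos h0, norm_cpow_of_pos h0]
    apply add_le_add
    · have : (w + 1).re = w.re + 1 := by simp
      rw [this]
      exact mul_le_mul_of_nonneg_right (hD1 y hy) (Real.rpow_nonneg h0.le _)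
    · rw [mul_assoc, mul_assoc]
      apply mul_le_mul_of_nonneg_left _ (norm_nonneg _)
      rw [← mul_assoc]
      exact mul_le_mul_of_nonneg_right (S.hC y hy) (Real.rpow_nonneg h0.le _)
  have key := integral_Ioi_of_hasDerivAt_of_tendsto hcont hder hint htop
  rw [hF0, sub_zero] at key
  simp only [hF'] at key
  rw [integral_sub ((S.conv (w := w + 2) (by simp; linarith)).const_mul _) ((S.conv hw).const_mul _),
    integral_const_mul, integral_const_mul] at key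
  unfold Mel
  linear_combination -key

end Pool.Agent.V8H85.OMM
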