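import Pool.Agent.V8H85.OM.Mel

set_option autoImplicit false
open MeasureTheory Set Filter Topology Asymptotics
open scoped FourierTransform

namespace Pool.Agent.V8H85.OMM

variable {a a1 : ℝ → ℂ} {lam : ℂ} {B C : ℝ}

theorem int_abs {G : ℝ → ℂ} (hG : IntegrableOn G (Ioi 0)) :
    Integrable (fun y : ℝ => G |y|) ∧ ∫ y : ℝ, G |y| = 2 * ∫ y in Ioi (0:ℝ), G y := by
  have eq : ∫ (x : ℝ) in Ioi 0, G |x| = ∫ (x : ℝ) in Ioi 0, G x := by
    refine setIntegral_congr_fun measurableSet_Ioi (fun x hx => ?_)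
    rw [abs_eq_self.mpr (le_of_lt (by exact hx))]
  have hf : IntegrableOn (fun y : ℝ => G |y|) (Ioi 0) :=
    hG.congr_fun (fun y hy => by rw [abs_of_pos (show (0:ℝ) < y from hy)]) measurableSet_Ioi
  have int_Iic : IntegrableOn (fun x ↦ G |x|) (Iic 0) := by
    rw [← Measure.map_neg_eq_self (volume : Measure ℝ)]
    let m : MeasurableEmbedding fun x : ℝ => -x := (Homeomorph.neg ℝ).measurableEmbedding
    rw [m.integrableOn_map_iff]
    simp_rw [Function.comp_def, abs_neg, neg_preimage, neg_Iic, neg_zero]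
    exact Iff.mpr integrableOn_Ici_iff_integrableOn_Ioi hf
  constructor
  · have := int_Iic.union hf
    rwa [Iic_union_Ioi, integrableOn_univ] at this
  · calc
      _ = (∫ x in Iic 0, G |x|) + ∫ x in Ioi 0, G |x| := by
        rw [← setIntegral_union (Iic_disjoint_Ioi le_rfl) measurableSet_Ioi int_Iic hf,
          Iic_union_Ioi, Measure.restrict_univ]
      _ = 2 * ∫ x in Ioi 0, G x := by
        rw [two_mul, eq]
        congr! 1
        rw [← neg_zero, ← integral_comp_neg_Iic, neg_zero]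
        refine setIntegral_congr_fun measurableSet_Iic (fun x hx => ?_)
        rw [abs_eq_neg_self.mpr (by exact hx)]

/-- the even extension -/
noncomputable def EF (a : ℝ → ℂ) (s : ℂ) (y : ℝ) : ℂ := a |y| * ((|y| : ℝ) : ℂ) ^ (s - 1)

theorem Sol.conv_exp (S : Sol a a1 lam B C) {s : ℂ} (hs : 0 < s.re) {c : ℝ} (hc : c < Real.pi) (hc0 : 0 ≤ c) :
    IntegrableOn (fun y : ℝ => (Real.exp (c * y) : ℂ) * (a y * (y : ℂ) ^ (s - 1))) (Ioi 0) := by
  have hB0 : 0 ≤ B := (norm_nonneg _).trans (S.hB 1 one_pos)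
  have h1 : LocallyIntegrableOn (fun y : ℝ => (Real.exp (c * y) : ℂ) * a y) (Ioi 0) := by
    apply ContinuousOn.locallyIntegrableOn _ measurableSet_Ioi
    intro y hy
    apply ContinuousAt.continuousWithinAt
    apply ContinuousAt.mul _ (S.h1 y hy).continuousAt
    apply Continuous.continuousAt
    fun_prop
  have h2 : (fun y : ℝ => (Real.exp (c * y) : ℂ) * a y) =O[atTop] (fun y : ℝ => Real.exp (-(Real.pi - c) * y)) := by
    apply IsBigO.of_bound C
    filter_upwards [eventually_ge_atTop 1] with y hy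
    rw [norm_mul, Complex.norm_real, Real.norm_of_nonneg (Real.exp_pos _).le,
      Real.norm_of_nonneg (Real.exp_pos _).le]
    calc Real.exp (c * y) * ‖a y‖ ≤ Real.exp (c * y) * (C * Real.exp (-Real.pi * y)) :=
          mul_le_mul_of_nonneg_left (S.hC y hy) (Real.exp_pos _).le
      _ = C * Real.exp (-(Real.pi - c) * y) := by
          rw [mul_left_comm, ← Real.exp_add]; congr 2; ring
  have h3 : (fun y : ℝ => (Real.exp (c * y) : ℂ) * a y) =O[𝓝[>] 0] (fun y : ℝ => y ^ (-(0 : ℝ))) := by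
    apply IsBigO.of_bound (Real.exp c * B)
    filter_upwards [self_mem_nhdsWithin, nhdsWithin_le_nhds (Iio_mem_nhds (one_pos : (0:ℝ) < 1))] with y hy hy1
    have hy' : (0:ℝ) < y := hy
    have hy1' : y < 1 := hy1
    rw [norm_mul, Complex.norm_real, Real.norm_of_nonneg (Real.exp_pos _).le]
    simp only [neg_zero, Real.rpow_zero, norm_one, mul_one]
    apply mul_le_mul _ (S.hB y hy') (norm_nonneg _) (Real.exp_pos _).le
    apply Real.exp_le_exp.2
    nlinarith
  have := mellinConvergent_of_isBigO_rpow_exp (sub_pos.2 hc) h1 h2 h3 hs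
  refine this.congr_fun (fun y _ => ?_) measurableSet_Ioi
  simp only [smul_eq_mul]
  ring

theorem Sol.int_EF (S : Sol a a1 lam B C) {s : ℂ} (hs : 0 < s.re) {c : ℝ} (hc : c < Real.pi) (hc0 : 0 ≤ c) :
    Integrable (fun y : ℝ => ‖EF a s y‖ * Real.exp (c * |y|)) := by
  have h := (int_abs (S.conv_exp hs hc hc0)).1.norm
  refine h.congr (Eventually.of_forall fun y => ?_)
  change ‖(Real.exp (c * |y|) : ℂ) * (a |y| * ((|y| : ℝ) : ℂ) ^ (s - 1))‖ = _
  rw [norm_mul, Complex.norm_real, Real.norm_of_nonneg (Real.exp_pos _).le, mul_comm]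
  rfl

theorem Sol.int_EF' (S : Sol a a1 lam B C) {s : ℂ} (hs : 0 < s.re) : Integrable (EF a s) :=
  (int_abs (S.conv hs)).1

theorem Sol.hasSum (S : Sol a a1 lam B C) {s : ℂ} (hs : 0 < s.re) {z₀ z : ℂ} (hz : |z₀.re| + ‖z‖ < Real.pi) :
    HasSum (fun n : ℕ => ∫ y : ℝ, EF a s y * Complex.exp (z₀ * y) * ((z * y) ^ n / (n.factorial : ℂ)))
      (∫ y : ℝ, EF a s y * Complex.exp ((z₀ + z) * y)) := by
  have hmeas : AEStronglyMeasurable (EF a s) volume := (S.int_EF' hs).aestronglyMeasurable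
  have hsum : ∀ y : ℝ, HasSum (fun n : ℕ => ‖EF a s y‖ * Real.exp (|z₀.re| * |y|) *
      ((‖z‖ * |y|) ^ n / (n.factorial : ℝ))) (‖EF a s y‖ * Real.exp (|z₀.re| * |y|) * Real.exp (‖z‖ * |y|)) := by
    intro y
    apply HasSum.mul_left
    rw [Real.exp_eq_exp_ℝ]
    exact NormedSpace.expSeries_div_hasSum_exp (‖z‖ * |y|)
  apply hasSum_integral_of_dominated_convergence
    (fun (n : ℕ) (y : ℝ) => ‖EF a s y‖ * Real.exp (|z₀.re| * |y|) * ((‖z‖ * |y|) ^ n / (n.factorial : ℝ)))
  · intro n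
    apply AEStronglyMeasurable.mul
    · apply hmeas.mul
      apply Continuous.aestronglyMeasurable; fun_prop
    · apply Continuous.aestronglyMeasurable; fun_prop
  · intro n
    refine Eventually.of_forall fun y => ?_
    rw [norm_mul, norm_mul, norm_div, norm_pow, norm_mul, Complex.norm_real, Complex.norm_natCast,
      Complex.norm_exp, Real.norm_eq_abs]
    apply mul_le_mul_of_nonneg_right _ (by positivity)
    apply mul_le_mul_of_nonneg_left _ (norm_nonneg _)
    apply Real.exp_le_exp.2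
    rw [Complex.re_mul_ofReal]
    calc z₀.re * y ≤ |z₀.re * y| := le_abs_self _
      _ = _ := abs_mul _ _
  · exact Eventually.of_forall fun y => (hsum y).summable
  · refine (S.int_EF hs hz (by positivity)).congr (Eventually.of_forall fun y => ?_)
    change _ = ∑' n : ℕ, _
    rw [(hsum y).tsum_eq, mul_assoc, ← Real.exp_add]
    ring_nf
  · refine Eventually.of_forall fun y => ?_
    rw [add_mul, Complex.exp_add, ← mul_assoc]
    apply HasSum.mul_left
    rw [Complex.exp_eq_exp_ℂ]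
    exact NormedSpace.expSeries_div_hasSum_exp (z * (y : ℂ))

/-- the bilateral Laplace transform -/
noncomputable def Lap (a : ℝ → ℂ) (s z : ℂ) : ℂ := ∫ y : ℝ, EF a s y * Complex.exp (z * y)

theorem Sol.analyticAt_Lap (S : Sol a a1 lam B C) {s : ℂ} (hs : 0 < s.re) {z₀ : ℂ} (hz : |z₀.re| < Real.pi) :
    AnalyticAt ℂ (Lap a s) z₀ := by
  set p : FormalMultilinearSeries ℂ ℂ ℂ := FormalMultilinearSeries.ofScalars ℂ
    (fun n : ℕ => ∫ y : ℝ, EF a s y * Complex.exp (z₀ * y) * ((y : ℂ) ^ n / (n.factorial : ℂ))) with hp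
  refine ⟨p, ?_⟩
  rw [hasFPowerSeriesAt_iff]
  have : ∀ᶠ z : ℂ in 𝓝 0, ‖z‖ < Real.pi - |z₀.re| := by
    have h0 : (0:ℝ) < Real.pi - |z₀.re| := by linarith
    filter_upwards [Metric.ball_mem_nhds (0:ℂ) h0] with z hz
    simpa using hz
  filter_upwards [this] with z hz'
  have h := S.hasSum hs (z₀ := z₀) (z := z) (by linarith)
  refine h.congr_fun (fun n => ?_)
  rw [hp, FormalMultilinearSeries.coeff_ofScalars, smul_eq_mul, ← integral_const_mul]
  apply integral_congr_ae
  refine Eventually.of_forall fun y => ?_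
  simp only [mul_pow]
  ring

/-- vanishing moments -/
theorem Sol.moment (S : Sol a a1 lam B C) {s : ℂ} (hs : 0 < s.re)
    (hM : ∀ k : ℕ, Mel a (s + 2 * k) = 0) (n : ℕ) :
    ∫ y : ℝ, EF a s y * (y : ℂ) ^ n = 0 := by
  rcases Nat.even_or_odd n with ⟨k, hk⟩ | hodd
  · have h := (int_abs (S.conv (w := s + 2 * k) (by simp; positivity))).2
    have hM' := hM k
    unfold Mel at hM'
    rw [hM', mul_zero] at h
    rw [← h]
    apply integral_congr_ae
    have h0 : ∀ᵐ y : ℝ, y ≠ 0 := by
      simp [ae_iff, measure_singleton]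
    filter_upwards [h0] with y hy
    unfold EF
    have hy' : ((|y| : ℝ) : ℂ) ≠ 0 := by
      exact_mod_cast (abs_pos.2 hy).ne'
    have e1 : (s + 2 * (k : ℂ) - 1) = (s - 1) + ((2 * k : ℕ) : ℂ) := by push_cast; ring
    rw [e1, Complex.cpow_add _ _ hy', Complex.cpow_natCast, mul_assoc]
    congr 2
    rw [hk]
    have : k + k = 2 * k := by ring
    rw [this, pow_mul, pow_mul]
    congr 1
    have := sq_abs y
    exact_mod_cast this.symm
  · have h1 := integral_neg_eq_self (fun y : ℝ => EF a s y * (y : ℂ) ^ n) volume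
    have h2 : (fun y : ℝ => EF a s (-y) * ((-y : ℝ) : ℂ) ^ n) = fun y : ℝ => -(EF a s y * (y : ℂ) ^ n) := by
      funext y
      unfold EF
      rw [abs_neg]
      push_cast
      rw [hodd.neg_pow]
      ring
    rw [h2, integral_neg] at h1
    have h3 : (2:ℂ) * ∫ y : ℝ, EF a s y * (y : ℂ) ^ n = 0 := by linear_combination -h1
    simpa using h3

theorem Sol.eq_zero (S : Sol a a1 lam B C) {s : ℂ} (hs : 0 < s.re)
    (hM : ∀ k : ℕ, Mel a (s + 2 * k) = 0) : ∀ y : ℝ, 0 < y → a y = 0 := by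
  -- `Lap` vanishes near zero
  have hnear : Lap a s =ᶠ[𝓝 0] 0 := by
    have : ∀ᶠ z : ℂ in 𝓝 0, ‖z‖ < Real.pi := by
      filter_upwards [Metric.ball_mem_nhds (0:ℂ) Real.pi_pos] with z hz
      simpa using hz
    filter_upwards [this] with z hz
    have h := S.hasSum hs (z₀ := 0) (z := z) (by simpa using hz)
    have h2 : ∀ n : ℕ, ∫ y : ℝ, EF a s y * Complex.exp (0 * y) * ((z * y) ^ n / (n.factorial : ℂ)) = 0 := by
      intro n
      have : (fun y : ℝ => EF a s y * Complex.exp (0 * y) * ((z * y) ^ n / (n.factorial : ℂ))) =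
          fun y : ℝ => (z ^ n / (n.factorial : ℂ)) * (EF a s y * (y : ℂ) ^ n) := by
        funext y
        rw [zero_mul, Complex.exp_zero, mul_pow]; ring
      rw [this, integral_const_mul, S.moment hs hM n, mul_zero]
    have h4 : HasSum (fun n : ℕ => ∫ y : ℝ, EF a s y * Complex.exp (0 * y) * ((z * y) ^ n / (n.factorial : ℂ))) 0 := by
      simp_rw [h2]
      exact hasSum_zero
    have h3 := h.unique h4
    simpa [Lap] using h3
  have hstrip : EqOn (Lap a s) 0 {z : ℂ | |z.re| < Real.pi} := by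
    refine AnalyticOnNhd.eqOn_zero_of_preconnected_of_eventuallyEq_zero (𝕜 := ℂ) (z₀ := (0:ℂ)) ?_ ?_ ?_ hnear
    · intro z hz
      exact S.analyticAt_Lap hs hz
    · apply Convex.isPreconnected
      have : {z : ℂ | |z.re| < Real.pi} = Complex.reLm ⁻¹' (Ioo (-Real.pi) Real.pi) := by
        ext z; simp [abs_lt]
      rw [this]
      exact (convex_Ioo _ _).linear_preimage _
    · simp [Real.pi_pos]
  have hF : 𝓕 (EF a s) = 0 := by
    funext ξ
    rw [Real.fourier_eq']
    have h := hstrip (x := ((-2 * Real.pi * ξ : ℝ) : ℂ) * Complex.I) (by simp [Real.pi_pos])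
    simp only [Pi.zero_apply] at h ⊢
    rw [← h]
    unfold Lap
    apply integral_congr_ae
    refine Eventually.of_forall fun y => ?_
    simp only [smul_eq_mul]
    rw [mul_comm]
    congr 2
    simp
    ring
  intro y hy
  have hc : ContinuousAt (EF a s) y := by
    have h1 : ContinuousAt (fun y : ℝ => a y * (y : ℂ) ^ (s - 1)) y := by
      apply (S.h1 y hy).continuousAt.mul
      apply ContinuousAt.comp (f := fun y : ℝ => (y : ℂ)) (g := fun z : ℂ => z ^ (s - 1))
      · exact continuousAt_cpow_const (by simp [Complex.slitPlane, hy])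
      · exact Complex.continuous_ofReal.continuousAt
    refine h1.congr ?_
    filter_upwards [Ioi_mem_nhds hy] with z hz
    unfold EF
    rw [abs_of_pos (show (0:ℝ) < z from hz)]
  have hinv := (S.int_EF' hs).fourierInv_fourier_eq (by rw [hF]; exact integrable_zero _ _ _) hc
  rw [hF] at hinv
  have h0 : EF a s y = 0 := by
    rw [← hinv, Real.fourierInv_eq']
    simp
  unfold EF at h0
  rw [abs_of_pos hy] at h0
  rcases mul_eq_zero.1 h0 with h | h
  · exact h
  · exfalso
    rw [Complex.cpow_eq_zero_iff] at h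
    exact absurd h.1 (by exact_mod_cast hy.ne')

theorem Sol.Mel_ne_zero (S : Sol a a1 lam B C) (h0 : ∃ y : ℝ, 0 < y ∧ a y ≠ 0) {w : ℂ} (hw : 0 < w.re) :
    Mel a w ≠ 0 := by
  intro h
  have hM : ∀ k : ℕ, Mel a (w + 2 * k) = 0 := by
    intro k
    induction k with
    | zero => simpa using h
    | succ k ih =>
      have hf := S.functional (w := w + 2 * k) (by simp; positivity)
      rw [ih, mul_zero] at hf
      have h4 : (4 * (Real.pi : ℂ) ^ 2) ≠ 0 := by
        have := Real.pi_pos.ne'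
        simp [this]
      have := (mul_eq_zero.1 hf.symm).resolve_left h4
      rw [← this]; congr 1; push_cast; ring
  obtain ⟨y, hy, hay⟩ := h0
  exact hay (S.eq_zero hw hM y hy)

end Pool.Agent.V8H85.OMM
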